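import Mathlib
import Pool.Agent.Helper52.TY.CbDefA

/-!
MP_8ee768_co, project TH-Y', stage A: soundness of the callback.
-/

set_option autoImplicit false
set_option exponentiation.threshold 2000000

namespace Pool.Agent.Helper52.TY.CbA

open Finset
open Pool.Agent.Helper89.CV (OddCover ofMask)
open Pool.Agent.Helper97.CV
open Pool.Agent.Helper97.CV.Kill10 (P1 P2 onS P1_lt P2_lt P1_le P2_le)
open Pool.Agent.Helper63.SIMD
open Pool.Agent.Helper33.CV
open Pool.Agent.Helper59.TY (spd p2 p3)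
open Pool.Agent.Helper55.TY
open Pool.Agent.Helper55.TY.M10
open Pool.Agent.Helper38.TY (frS frS_eq ite0 ite0_false ite0_true)
open Pool.Agent.Helper97.CV.KilR (kilR kilR_ok)
open Pool.Agent.Helper63.TY (Cb Acc Agree)

/-- the root words, as values -/
def rootb (R : ℕ) : ℕ := spd ((R >>> 3072) &&& p2)
def rootn (R i : ℕ) : ℕ := nT (spd ((R >>> i) &&& p3))
def rootf (R : ℕ) : ℕ :=
  nQ (spd (R &&& w4)) + 2 * (rootn R 1024 + rootn R 2048) + 3 * rootb R -
    ((((rootn R 1024 + rootb R) >>> 1) &&& c127) + (((rootn R 2048 + rootb R) >>> 1) &&& c127))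
def roota (R : ℕ) : ℕ := cC8 + spd (R &&& w1)

theorem rootA_eq (R : ℕ) (k : ℕ → ℕ → ℕ → ℕ → Bool) :
    rootA R k = k (R &&& w4) (rootf R) (roota R) (rootb R) := by
  unfold rootA
  simp only [frS_eq]
  rfl

/-- the words of a match -/
def SA (x u v : ℕ) : ℕ := spd (lowW (maj x u v) u v)
def SB (x u v : ℕ) : ℕ := spd (highW (maj x u v) v)
def pairw (R u v : ℕ) : ℕ :=
  fW (rootf R) (rootb R) (SA (R &&& w4) u v) (SB (R &&& w4) u v)
    (nT (SA (R &&& w4) u v &&& cT))
def offw (x u v : ℕ) : ℕ := (SA x u v + SB x u v) &&& c13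
def parw (x u v : ℕ) : ℕ := spd (((x ^^^ u) ^^^ v) &&& w4)

theorem matchA_eq (x F AL b T u v s : ℕ) (c : ℕ → Bool) :
    matchA x F AL b T u v s c =
      ite0 (kilR (thrM T u v) (AL + offw x u v) (fW F b (SA x u v) (SB x u v)
          (nT (SA x u v &&& cT))))
        (ite0 (eqU u v) (c s)
          (mcb (kilR (thrM T u v) (AL + offw x u v)) (parw x u v)
            (fW F b (SA x u v) (SB x u v) (nT (SA x u v &&& cT))) s c))
        (c s) := by
  unfold matchA
  simp only [frS_eq]
  rfl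

/-- what the words of a match mean -/
structure WordLaw (B : Fam') (R u v : ℕ) : Prop where
  par : parw (R &&& w4) u v = g (Rk B 10) ^^^ g (Rk B 11) ^^^ g (Rk B 12)
  pair : ∃ p : ℕ → ℕ, pairw R u v = pk 8 1024 p ∧
    (∀ r ∈ P2, p r ≤ Lam (Dec B B5) (ofMask r)) ∧ ∀ r, r ∉ P2 → p r = 0
  off : ∃ a : ℕ → ℕ, roota R + offw (R &&& w4) u v = pk 8 1024 a ∧ (∀ r, a r ≤ 97) ∧
    ∀ z : Fin 13, z.val < 10 → a (2 ^ z.val) ≤ mm B z 10 + mm B z 11 + mm B z 12 + 1

/-- **soundness of the callback of stage A** -/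
theorem cbLaw_of_words (hW : ∀ (B : Fam') (R u v : ℕ), OddCover B → IsRoot B R →
      cub 11 (LYL B) = u → cub 11 (LZL B) = v → WordLaw B R u v) (D : Fam') (h : ℕ) :
    CbLaw cbA D h := by
  intro R hR k hk
  unfold cbA at hk
  rw [rootA_eq] at hk
  simp only [frS_eq] at hk
  refine ⟨_, hk, fun u v s c hs => ?_⟩
  have key : ∀ B, HA D h B → cub 11 (LYL B) = u → cub 11 (LZL B) = v →
      Start (kilR (thrM (thrA R (wLow h)) u v) (roota R + (cH - wLow h) + offw (R &&& w4) u v))
        (parw (R &&& w4) u v) (pairw R u v) B := by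
    intro B hB hu hv
    have hBo := hB.best.odd
    have hRt : IsRoot B R := by
      unfold IsRoot
      rw [hB.root]
      exact hR
    have hw := hW B R u v hBo hRt hu hv
    obtain ⟨a, ha, ha97, hoff⟩ := hw.off
    refine ⟨hBo, ?_, hw.par, hw.pair⟩
    have e : roota R + (cH - wLow h) + offw (R &&& w4) u v =
        pk 8 1024 a + pk 8 1024 (fun r => onS P1 128 r - lowA h r) := by
      rw [← sub_wLow, ← ha]
      ring
    rw [e]
    refine kilR_ok hBo hB.best.le ha97 (lowA_le h) (fun z _ => lowA_even h _) hoff ?_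
      (thr_ok hBo hRt hu hv hB.c6 hB.y6 hB.z6)
    intro z hz
    rw [lowA_pow hz]
    cases hb : h.testBit z.val with
    | false => simp
    | true => simpa using hB.low z hz hb
  rw [matchA_eq] at hs
  have e1 : fW (rootf R) (rootb R) (SA (R &&& w4) u v) (SB (R &&& w4) u v)
    (nT (SA (R &&& w4) u v &&& cT)) = pairw R u v := rfl
  rw [e1] at hs
  have e2 : Nat.add (roota R) (Nat.sub cH (wLow h)) = roota R + (cH - wLow h) := rfl
  rw [e2] at hs
  generalize hK : kilR (thrM (thrA R (wLow h)) u v)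
      (roota R + (cH - wLow h) + offw (R &&& w4) u v) = K at hs key
  cases hkl : K (pairw R u v) with
  | true =>
    rw [hkl, ite0_true] at hs
    refine ⟨fun _ B hB hu hv => ?_, s, hs⟩
    rw [(key B hB hu hv).kill_eq] at hkl
    exact Bool.false_ne_true hkl
  | false =>
    rw [hkl, ite0_false] at hs
    cases hag : eqU u v with
    | false =>
      rw [hag, ite0_false] at hs
      refine ⟨fun h1 => ?_, s, hs⟩
      rw [eqU_of_agree h1] at hag
      exact absurd hag (by decide)
    | true =>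
      rw [hag, ite0_true] at hs
      obtain ⟨h1, h2⟩ := acc_mcb (C := fun B => HA D h B ∧ cub 11 (LYL B) = u ∧
        cub 11 (LZL B) = v) (fun B hB => key B hB.1 hB.2.1 hB.2.2) s c hs
      exact ⟨fun _ B hB hu hv => h1 B ⟨hB, hu, hv⟩, h2⟩

end Pool.Agent.Helper52.TY.CbA
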