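import Pool.Agent.Helper59.TY.G8
import Pool.Agent.Helper55.TY.Cbk
import Pool.Agent.Helper52.TY.CbDefA

/-!
MP_8ee768_co, project TH-Y': the words of the callback of the star engine in the frame
`K = {10, 11, 12}`, tools. Fields of 8 bits on the 1024 masks of outside points.

* `cS S r`: number of members of `S` above the pair `r`; the correlations `cC2`, `cC1` compute it for
  sets of quads and of triples (`quad_prod`, `tri_prod`); `half_word`: halving.
-/

set_option autoImplicit false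
set_option exponentiation.threshold 20000
set_option maxRecDepth 20000

namespace Pool.Agent.Helper52.TY.CbA

open Finset
open Pool.Agent.Helper63.SIMD
open Pool.Agent.Helper55.TY
open Pool.Agent.Helper55.TY.M10
open Pool.Agent.Helper97.CV
open Pool.Agent.Helper97.CV.Kill10 (P1 P2 onS P1_lt P2_lt P1_le P2_le)
open Pool.Agent.Helper79.CV (L mem_L lt_of_mem_L nodup_L)
open Pool.Agent.Helper33.CV (layM testBit_layM)
open Pool.Agent.Helper59.TY (spd spd_eq p2 p3 p2_eq p3_eq)
open Pool.Agent.Helper89.CV (ofMask)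

theorem w1_eq : w1 = layM 10 1 := by decide +kernel
theorem w4_eq : w4 = layM 10 4 := by decide +kernel

/-- masks of the triples of outside points -/
def T3 : Finset ℕ := (L 10 3).toFinset

theorem T3_lt {r : ℕ} (h : r ∈ T3) : r < 1024 := lt_of_mem_L (List.mem_toFinset.1 h)

theorem cQ3_eq : cQ3 = pk 8 1024 (onS Q4 3) := by
  rw [pk_onS fun r hr => Q4_lt hr, ← cQ_eq]
  decide +kernel

theorem cT_eq : cT = g T3 := by
  unfold T3
  rw [g_toFinset _ (nodup_L _ _)]
  decide +kernel

theorem c13_eq : c13 = pk 8 1024 (onS P1 3) := by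
  rw [pk_onS fun r hr => P1_lt hr, ← cC8_eq]
  decide +kernel

theorem c127_eq : c127 = pk 8 1024 (onS P2 127) := by
  rw [pk_onS fun r hr => P2_lt hr, gP2]
  decide +kernel

theorem c15_eq : c15 = pk 8 1024 (onS P2 15) := by
  rw [pk_onS fun r hr => P2_lt hr, gP2]
  decide +kernel

theorem bit_w1 (r : ℕ) : w1.testBit r = decide (r ∈ P1) := by
  rw [w1_eq, testBit_layM]
  unfold P1
  rw [decide_eq_decide, List.mem_toFinset]

theorem bit_p2 (r : ℕ) : p2.testBit r = decide (r ∈ P2) := by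
  rw [p2_eq, testBit_layM]
  unfold P2
  rw [decide_eq_decide, List.mem_toFinset]

theorem bit_p3 (r : ℕ) : p3.testBit r = decide (r ∈ T3) := by
  rw [p3_eq, testBit_layM]
  unfold T3
  rw [decide_eq_decide, List.mem_toFinset]

theorem bit_w4 (r : ℕ) : w4.testBit r = decide (r ∈ Q4) := by
  rw [w4_eq, testBit_layM]
  unfold Q4
  rw [decide_eq_decide, List.mem_toFinset]

/-! ## bits as sets -/

/-- the bits below 1024 -/
def bt (a : ℕ) : Finset ℕ := (range 1024).filter fun r => a.testBit r = true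

theorem mem_bt {a r : ℕ} : r ∈ bt a ↔ r < 1024 ∧ a.testBit r = true := by
  unfold bt
  rw [mem_filter, mem_range]

theorem bt_lt {a r : ℕ} (h : r ∈ bt a) : r < 1024 := (mem_bt.1 h).1

theorem spd_bt {a : ℕ} (ha : a < 2 ^ 1024) : spd a = g (bt a) := by
  rw [spd_eq ha, g_eq_pk (N := 1024) fun r hr => bt_lt hr]
  refine pk_congr fun r hr => ?_
  unfold fld ind
  rw [one_mul, pow_one]
  by_cases h : a.testBit r = true
  · rw [if_pos (mem_bt.2 ⟨hr, h⟩)]
    rw [Nat.testBit_eq_decide_div_mod_eq] at h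
    exact of_decide_eq_true h
  · rw [if_neg (fun h1 => h (mem_bt.1 h1).2)]
    rw [Nat.testBit_eq_decide_div_mod_eq, decide_eq_true_eq] at h
    omega

theorem lt_of_land {a m : ℕ} (hm : m < 2 ^ 1024) : a &&& m < 2 ^ 1024 :=
  lt_of_le_of_lt Nat.and_le_right hm

theorem w1_lt : w1 < 2 ^ 1024 := by decide +kernel
theorem w4_lt : w4 < 2 ^ 1024 := by decide +kernel
theorem p2_lt : p2 < 2 ^ 1024 := by decide +kernel
theorem p3_lt : p3 < 2 ^ 1024 := by decide +kernel

/-- a spread word as a set, from its bits -/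
theorem spd_set {a : ℕ} (ha : a < 2 ^ 1024) {S : Finset ℕ} (hS : ∀ r ∈ S, r < 1024)
    (h : ∀ r < 1024, a.testBit r = true ↔ r ∈ S) : spd a = g S := by
  rw [spd_bt ha]
  congr 1
  ext r
  rw [mem_bt]
  exact ⟨fun h1 => (h r h1.1).1 h1.2, fun h1 => ⟨hS r h1, (h r (hS r h1)).2 h1⟩⟩

/-! ## disjointness of the weights -/

theorem card_ofMask_of_mem {k r : ℕ} (h : r ∈ L 10 k) : (ofMask r).card = k :=
  ((mem_L (by norm_num)).1 h).2

theorem wt_ne {j k r : ℕ} (hjk : j ≠ k) (h : r ∈ L 10 j) : r ∉ L 10 k := fun h1 =>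
  hjk ((card_ofMask_of_mem h).symm.trans (card_ofMask_of_mem h1))

theorem Q4_T3 {r : ℕ} (h : r ∈ Q4) : r ∉ T3 := fun h1 =>
  wt_ne (by norm_num) (List.mem_toFinset.1 h) (List.mem_toFinset.1 h1)
theorem Q4_P1 {r : ℕ} (h : r ∈ Q4) : r ∉ P1 := fun h1 =>
  wt_ne (by norm_num) (List.mem_toFinset.1 h) (List.mem_toFinset.1 h1)
theorem T3_P1 {r : ℕ} (h : r ∈ T3) : r ∉ P1 := fun h1 =>
  wt_ne (by norm_num) (List.mem_toFinset.1 h) (List.mem_toFinset.1 h1)

/-! ## counting above a pair -/

/-- number of members of `S` above `r` -/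
def cS (S : Finset ℕ) (r : ℕ) : ℕ := (S.filter fun m => ofMask r ⊆ ofMask m).card

/-- all checks `m` above `r` iff `m - r` is a mask of weight `k` -/
def chkSub (k j : ℕ) : Bool :=
  (L 10 k).all fun m => (L 10 2).all fun r =>
    ((L 10 j).contains (m - r) && Nat.ble r m) == Nat.beq (m &&& r) r

theorem chk4 : chkSub 4 2 = true := by decide +kernel
theorem chk3 : chkSub 3 1 = true := by decide +kernel

theorem subset_iff_land {r m : ℕ} (hr : r < 2 ^ 13) :
    ofMask r ⊆ ofMask m ↔ m &&& r = r := by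
  constructor
  · intro h
    refine Nat.eq_of_testBit_eq fun i => ?_
    rw [Nat.testBit_and]
    by_cases hi : i < 13
    · by_cases hb : r.testBit i = true
      · have h1 : (⟨i, hi⟩ : Fin 13) ∈ ofMask m :=
          h (Pool.Agent.Helper79.CV.mem_ofMask.2 hb)
        rw [Pool.Agent.Helper79.CV.mem_ofMask] at h1
        rw [hb, Bool.and_true]
        exact h1
      · rw [Bool.not_eq_true] at hb
        rw [hb, Bool.and_false]
    · have h2 : r.testBit i = false := Nat.testBit_eq_false_of_lt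
        (lt_of_lt_of_le hr (Nat.pow_le_pow_right (by norm_num) (by omega)))
      rw [h2, Bool.and_false]
  · intro h i hi
    rw [Pool.Agent.Helper79.CV.mem_ofMask] at hi ⊢
    rw [← h, Nat.testBit_and, Bool.and_eq_true] at hi
    exact hi.1

theorem sub_iff_of_chk {k j m r : ℕ} (h : chkSub k j = true) (hm : m ∈ L 10 k)
    (hr : r ∈ L 10 2) : ofMask r ⊆ ofMask m ↔ ∃ q ∈ L 10 j, r + q = m := by
  unfold chkSub at h
  rw [List.all_eq_true] at h
  have h1 := h m hm
  rw [List.all_eq_true] at h1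
  have h2 := h1 r hr
  rw [beq_iff_eq] at h2
  have hr13 : r < 2 ^ 13 := lt_trans (lt_of_mem_L hr) (by norm_num)
  rw [subset_iff_land hr13]
  constructor
  · intro h3
    have h4 : Nat.beq (m &&& r) r = true := by rw [h3]; exact Nat.beq_refl r
    rw [h4, Bool.and_eq_true, List.contains_iff_mem] at h2
    have h5 : r ≤ m := Nat.le_of_ble_eq_true h2.2
    exact ⟨m - r, h2.1, by omega⟩
  · rintro ⟨q, hq, h3⟩
    have h4 : m - r = q := by omega
    have h5 : ((L 10 j).contains (m - r) && Nat.ble r m) = true := by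
      rw [Bool.and_eq_true, h4, List.contains_iff_mem]
      exact ⟨hq, Nat.ble_eq_true_of_le (by omega)⟩
    rw [h5] at h2
    exact Nat.eq_of_beq_eq_true h2.symm

/-- the correlation counts the members above -/
theorem sum_ext_ind {k j : ℕ} (h : chkSub k j = true) {S : Finset ℕ}
    (hS : S ⊆ (L 10 k).toFinset) {r : ℕ} (hr : r ∈ P2) :
    ∑ q ∈ (L 10 j).toFinset, KillW.ext 1024 (ind S) (r + q) = cS S r := by
  have hr2 : r ∈ L 10 2 := List.mem_toFinset.1 hr
  have h1 : ∀ q ∈ (L 10 j).toFinset,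
      KillW.ext 1024 (ind S) (r + q) = if r + q ∈ S then 1 else 0 :=
    fun q _ => ext_ind (fun m hm => lt_of_mem_L (List.mem_toFinset.1 (hS hm))) (r + q)
  rw [sum_congr rfl h1, ← card_filter]
  unfold cS
  refine card_bij (fun q _ => r + q) ?_ ?_ ?_
  · intro q hq
    rw [mem_filter] at hq ⊢
    exact ⟨hq.2, (sub_iff_of_chk h (List.mem_toFinset.1 (hS hq.2)) hr2).2
      ⟨q, List.mem_toFinset.1 hq.1, rfl⟩⟩
  · intro a _ b _ hab
    exact Nat.add_left_cancel hab
  · intro m hm
    rw [mem_filter] at hm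
    obtain ⟨q, hq, h2⟩ := (sub_iff_of_chk h (List.mem_toFinset.1 (hS hm.1)) hr2).1 hm.2
    exact ⟨q, mem_filter.2 ⟨List.mem_toFinset.2 hq, by rw [h2]; exact hm.1⟩, h2⟩

/-! ## products -/

/-- counts on the pairs -/
def onP (c : ℕ → ℕ) (r : ℕ) : ℕ := if r ∈ P2 then c r else 0

/-- quads with multiplicities -/
theorem quad_prod {SA SB SC : Finset ℕ} (hA : SA ⊆ Q4) (hB : SB ⊆ Q4) (hC : SC ⊆ Q4) :
    Nat.land (Nat.shiftRight (Nat.mul (pk 8 1024 (fun m => ind SA m + ind SB m + ind SC m)) cC2)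
      8184) cM2 = pk 8 1024 (onP fun r => cS SA r + cS SB r + cS SC r) := by
  have h2 := corr1 (E := 1023) (Ps := P2) (Rs := P2) (by norm_num) (fun p hp => P2_le hp)
    (w := fun m => ind SA m + ind SB m + ind SC m) (c := 3)
    (fun r _ => by
      have := ind_le SA r
      have := ind_le SB r
      have := ind_le SC r
      omega)
    (by rw [Pool.Agent.Helper97.CV.Kill10.P2_card]; norm_num) (fun r hr => P2_lt hr)
  have e : (8184 : ℕ) = 8 * 1023 := by norm_num
  rw [raw_land, raw_shr, raw_mul, cC2_eq, cM2_eq, e, h2]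
  refine pk_congr fun r _ => ?_
  unfold onP
  split_ifs with hr
  · have e1 : ∀ q, KillW.ext 1024 (fun m => ind SA m + ind SB m + ind SC m) (r + q) =
        KillW.ext 1024 (ind SA) (r + q) + KillW.ext 1024 (ind SB) (r + q) +
          KillW.ext 1024 (ind SC) (r + q) := by
      intro q
      unfold KillW.ext
      split_ifs <;> rfl
    rw [sum_congr rfl fun q _ => e1 q, sum_add_distrib, sum_add_distrib]
    have hP : P2 = (L 10 2).toFinset := rfl
    rw [hP, sum_ext_ind chk4 hA hr, sum_ext_ind chk4 hB hr, sum_ext_ind chk4 hC hr]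
  · rfl

/-- quads -/
theorem quad_prod1 {S : Finset ℕ} (hS : S ⊆ Q4) :
    Nat.land (Nat.shiftRight (Nat.mul (g S) cC2) 8184) cM2 = pk 8 1024 (onP (cS S)) := by
  have h := quad_prod hS (empty_subset Q4) (empty_subset Q4)
  rw [g_eq_pk fun r hr => Q4_lt (hS hr)]
  have e : ∀ r, ind (∅ : Finset ℕ) r = 0 := fun r => by
    unfold ind
    rw [if_neg (notMem_empty r)]
  have e2 : ∀ r, cS (∅ : Finset ℕ) r = 0 := fun r => by
    unfold cS
    rw [filter_empty, card_empty]
  simp only [e, e2, Nat.add_zero] at h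
  exact h

/-- triples -/
theorem tri_prod {S : Finset ℕ} (hS : S ⊆ T3) :
    Nat.land (Nat.shiftRight (Nat.mul (g S) cC1) 4096) cM2 = pk 8 1024 (onP (cS S)) := by
  have h2 := corr1 (E := 512) (Ps := P1) (Rs := P2) (by norm_num) (fun p hp => P1_le hp)
    (w := ind S) (c := 1) (fun r _ => ind_le S r)
    (by rw [Pool.Agent.Helper97.CV.Kill10.P1_card]; norm_num) (fun r hr => P2_lt hr)
  have e : (4096 : ℕ) = 8 * 512 := by norm_num
  rw [raw_land, raw_shr, raw_mul, cC1_eq, cM2_eq, e, g_eq_pk fun r hr => T3_lt (hS hr), h2]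
  refine pk_congr fun r _ => ?_
  unfold onP
  split_ifs with hr
  · exact sum_ext_ind chk3 hS hr
  · rfl

end Pool.Agent.Helper52.TY.CbA
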