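import Mathlib
import Pool.Agent.Helper52.TY.WdTool
import Pool.Agent.Helper52.TY.CbLawA
import Pool.Agent.Helper28.TY.Count3

/-!
MP_8ee768_co, project TH-Y', stage A: the words of the callback mean what they should.
-/

set_option autoImplicit false
set_option exponentiation.threshold 20000
set_option maxRecDepth 20000

namespace Pool.Agent.Helper52.TY.CbA

open Finset
open Pool.Agent.Helper63.SIMD
open Pool.Agent.Helper55.TY
open Pool.Agent.Helper55.TY.M10
open Pool.Agent.Helper97.CV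
open Pool.Agent.Helper97.CV.Kill10 (P1 P2 onS P1_lt P2_lt P1_le P2_le)
open Pool.Agent.Helper79.CV (L mem_L lt_of_mem_L nodup_L)
open Pool.Agent.Helper33.CV
open Pool.Agent.Helper59.TY (spd spd_eq p2 p3 p2_eq p3_eq)
open Pool.Agent.Helper89.CV (OddCover ofMask)

/-! ### halving -/

/-- halving on the pairs -/
theorem half_word {n b : ℕ → ℕ} (h : ∀ r, n r + b r < 128) :
    Nat.land (Nat.shiftRight (pk 8 1024 (onP n) + pk 8 1024 (onP b)) 1) c127 =
      pk 8 1024 (onP fun r => (n r + b r) / 2) := by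
  have e0 : pk 8 1024 (onP n) + pk 8 1024 (onP b) = pk 8 1024 (onP fun r => n r + b r) := by
    rw [pk_add]
    refine pk_congr fun r _ => ?_
    unfold onP
    split_ifs <;> rfl
  have hlt : ∀ i < 1024, onP (fun r => n r + b r) i < 2 ^ 8 := fun i _ => by
    unfold onP
    split_ifs
    · have := h i
      show n i + b i < 2 ^ 8
      omega
    · norm_num
  have hlt2 : ∀ i < 1024, onP (fun r => (n r + b r) / 2) i < 2 ^ 8 := fun i _ => by
    unfold onP
    split_ifs
    · have := h i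
      show (n i + b i) / 2 < 2 ^ 8
      omega
    · norm_num
  rw [e0, c127_eq, raw_land, raw_shr]
  refine Nat.eq_of_testBit_eq fun t => ?_
  have hc : ∀ i < 1024, onS P2 127 i < 2 ^ 8 := fun i _ => by
    unfold onS
    split_ifs <;> norm_num
  rw [Nat.testBit_and, Nat.testBit_shiftRight, Pool.Agent.Helper59.TY.testBit_pk (by norm_num) hlt,
    Pool.Agent.Helper59.TY.testBit_pk (by norm_num) hc,
    Pool.Agent.Helper59.TY.testBit_pk (by norm_num) hlt2]
  by_cases ht : t < 8 * 1024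
  · rw [decide_eq_true ht, Bool.true_and, Bool.true_and]
    by_cases hr : t / 8 ∈ P2
    · unfold onP onS
      rw [if_pos hr, if_pos hr, show (127 : ℕ) = 2 ^ 7 - 1 by norm_num,
        Nat.testBit_two_pow_sub_one]
      by_cases h7 : t % 8 < 7
      · have e1 : (1 + t) / 8 = t / 8 := by omega
        have e2 : (1 + t) % 8 = t % 8 + 1 := by omega
        rw [decide_eq_true h7, Bool.and_true, e1, e2, if_pos hr, Nat.testBit_succ,
          decide_eq_true (show 1 + t < 8 * 1024 by omega), Bool.true_and]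
      · rw [decide_eq_false h7, Bool.and_false]
        have h8 : t % 8 = 7 := by omega
        rw [h8]
        symm
        refine Nat.testBit_eq_false_of_lt ?_
        have := h (t / 8)
        show (n (t / 8) + b (t / 8)) / 2 < 2 ^ 7
        omega
    · unfold onP onS
      rw [if_neg hr, if_neg hr, Nat.zero_testBit, Bool.and_false]
  · rw [decide_eq_false ht, Bool.false_and, Bool.false_and, Bool.and_false]


/-! ### the bits of a frame -/

/-- the bits of the two lanes and of the root of `B` -/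
structure Bits (B : Fam') (R u v : ℕ) : Prop where
  x4 : ∀ r ∈ Q4, (R.testBit r = true ↔ r ∈ Rk B 12)
  u4 : ∀ r ∈ Q4, (u.testBit r = true ↔ r ∈ Rk B 11)
  v4 : ∀ r ∈ Q4, (v.testBit r = true ↔ r ∈ Rk B 10)
  yz : ∀ r ∈ T3, (u.testBit (1024 + r) = true ↔ insert 11 (insert 10 (ofMask r)) ∈ B)
  xz : ∀ r ∈ T3, (R.testBit (1024 + r) = true ↔ insert 12 (insert 10 (ofMask r)) ∈ B)
  xy : ∀ r ∈ T3, (R.testBit (2048 + r) = true ↔ insert 12 (insert 11 (ofMask r)) ∈ B)
  xyz : ∀ r ∈ P2, (R.testBit (3072 + r) = true ↔ insert 12 (insert 11 (insert 10 (ofMask r))) ∈ B)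
  x1 : ∀ z : Fin 13, z.val < 10 → (R.testBit (2 ^ z.val) = true ↔ 1 ≤ mm B 12 z)
  u1 : ∀ z : Fin 13, z.val < 10 → (u.testBit (2 ^ z.val) = true ↔ 1 ≤ mm B 11 z)
  v1 : ∀ z : Fin 13, z.val < 10 → (v.testBit (2 ^ z.val) = true ↔ 1 ≤ mm B 10 z)

theorem mem_T3 {r : ℕ} : r ∈ T3 ↔ r < 1024 ∧ (ofMask r).card = 3 := by
  unfold T3
  rw [List.mem_toFinset, mem_L (by norm_num)]
  norm_num

theorem mem_Q4' {r : ℕ} : r ∈ Q4 ↔ r < 1024 ∧ (ofMask r).card = 4 := by
  unfold Q4
  rw [List.mem_toFinset, mem_L (by norm_num)]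
  norm_num

theorem mem_P2' {r : ℕ} : r ∈ P2 ↔ r < 1024 ∧ (ofMask r).card = 2 := by
  unfold P2
  rw [List.mem_toFinset, mem_L (by norm_num)]
  norm_num

theorem mem_Rk {B : Fam'} {k : Fin 13} {r : ℕ} (hr : r ∈ Q4) :
    r ∈ Rk B k ↔ insert k (ofMask r) ∈ B := by
  unfold Rk
  rw [mem_filter]
  exact ⟨fun h => h.2, fun h => ⟨hr, h⟩⟩

theorem bits_of_lanes {B : Fam'} {R u v : ℕ} (hB : OddCover B) (hR : IsRoot B R)
    (hu : cub 11 (LYL B) = u) (hv : cub 11 (LZL B) = v) : Bits B R u v := by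
  subst hu
  subst hv
  refine ⟨fun r hr => ?_, fun r hr => ?_, fun r hr => ?_, fun r hr => ?_, fun r hr => ?_,
    fun r hr => ?_, fun r hr => ?_, fun z hz => ?_, fun z hz => ?_, fun z hz => ?_⟩
  · rw [mem_Rk hr]
    obtain ⟨h1, h2⟩ := mem_Q4'.1 hr
    exact hR.four h1 h2
  · rw [mem_Rk hr]
    obtain ⟨h1, h2⟩ := mem_Q4'.1 hr
    exact LYL_four h1 h2
  · rw [mem_Rk hr]
    obtain ⟨h1, h2⟩ := mem_Q4'.1 hr
    exact LZL_four h1 h2
  · obtain ⟨h1, h2⟩ := mem_T3.1 hr
    exact LYL_three h1 h2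
  · obtain ⟨h1, h2⟩ := mem_T3.1 hr
    exact hR.xz h1 h2
  · obtain ⟨h1, h2⟩ := mem_T3.1 hr
    exact hR.xy h1 h2
  · obtain ⟨h1, h2⟩ := mem_P2'.1 hr
    exact hR.xyz h1 h2
  · exact hR.one hB hz
  · exact LYL_one hB hz
  · exact LZL_one hB hz

section
variable {B : Fam'} {R u v : ℕ} (h : Bits B R u v)
include h

/-! ### parities -/

theorem par_word : parw (R &&& w4) u v = g (Rk B 10) ^^^ g (Rk B 11) ^^^ g (Rk B 12) := by
  rw [g_xor, g_xor]
  unfold parw
  refine spd_set (lt_of_land w4_lt) ?_ ?_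
  · intro r hr
    rw [mem_symmDiff, mem_symmDiff] at hr
    have h1 : ∀ k : Fin 13, r ∈ Rk B k → r < 1024 := fun k hk =>
      Q4_lt (mem_filter.1 hk).1
    rcases hr with ⟨h2 | h2, -⟩ | ⟨h2, -⟩
    · exact h1 _ h2.1
    · exact h1 _ h2.1
    · exact h1 _ h2
  · intro r _
    rw [Nat.testBit_and, Nat.testBit_xor, Nat.testBit_xor, Nat.testBit_and, bit_w4,
      Bool.and_eq_true, decide_eq_true_eq, mem_symmDiff, mem_symmDiff]
    by_cases hr : r ∈ Q4
    · have h1 := h.x4 r hr
      have h2 := h.u4 r hr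
      have h3 := h.v4 r hr
      rw [← h1, ← h2, ← h3, decide_eq_true hr]
      cases R.testBit r <;> cases u.testBit r <;> cases v.testBit r <;> simp [hr]
    · have h1 : ∀ k : Fin 13, r ∉ Rk B k := fun k hk => hr (mem_filter.1 hk).1
      have h4 := h1 10
      have h5 := h1 11
      have h6 := h1 12
      simp [hr, h4, h5, h6]

/-! ### bits of the words of a match -/

omit h in
theorem bit_lowW (J r : ℕ) : (lowW J u v).testBit r =
    (((u.testBit r ^^ v.testBit r ^^ J.testBit r) && decide (r ∈ Q4)) ||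
      (u.testBit r && decide (r ∈ P1)) || (u.testBit (1024 + r) && decide (r ∈ T3))) := by
  show (((((u ^^^ v) ^^^ J) &&& w4) ||| (u &&& w1)) ||| ((u >>> 1024) &&& p3)).testBit r = _
  rw [Nat.testBit_or, Nat.testBit_or, Nat.testBit_and, Nat.testBit_and, Nat.testBit_and,
    Nat.testBit_xor, Nat.testBit_xor, Nat.testBit_shiftRight, bit_w4, bit_w1, bit_p3]

omit h in
theorem bit_highW (J r : ℕ) : (highW J v).testBit r =
    ((J.testBit r && decide (r ∈ Q4)) || (v.testBit r && decide (r ∈ P1))) := by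
  show ((J &&& w4) ||| (v &&& w1)).testBit r = _
  rw [Nat.testBit_or, Nat.testBit_and, Nat.testBit_and, bit_w4, bit_w1]

omit h in
theorem lowW_lt (J : ℕ) : lowW J u v < 2 ^ 1024 := by
  refine Nat.lt_pow_two_of_testBit _ fun i hi => ?_
  rw [bit_lowW, decide_eq_false (fun h1 => absurd (Q4_lt h1) (by omega)),
    decide_eq_false (fun h1 => absurd (P1_lt h1) (by omega)),
    decide_eq_false (fun h1 => absurd (T3_lt h1) (by omega))]
  simp

omit h in
theorem highW_lt (J : ℕ) : highW J v < 2 ^ 1024 := by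
  refine Nat.lt_pow_two_of_testBit _ fun i hi => ?_
  rw [bit_highW, decide_eq_false (fun h1 => absurd (Q4_lt h1) (by omega)),
    decide_eq_false (fun h1 => absurd (P1_lt h1) (by omega))]
  simp

omit h in
theorem SA_eq (x : ℕ) : SA x u v = pk 8 1024 fun r => ((lowW (maj x u v) u v).testBit r).toNat := by
  unfold SA
  rw [spd_eq (lowW_lt _)]
  exact pk_congr fun r _ => fld_one _ _

omit h in
theorem SB_eq (x : ℕ) : SB x u v = pk 8 1024 fun r => ((highW (maj x u v) v).testBit r).toNat := by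
  unfold SB
  rw [spd_eq (highW_lt _)]
  exact pk_congr fun r _ => fld_one _ _

/-! ### offsets -/

omit h in
theorem pk_one_P1 : pk 8 1024 (onS P1 1) = cC8 := by
  rw [pk_onS (fun r hr => P1_lt hr), one_mul, cC8_eq]

omit h in
theorem two_pow_mem_P1 {z : ℕ} (hz : z < 10) : 2 ^ z ∈ P1 := by
  rw [Pool.Agent.Helper97.CV.Kill10.P1_eq, mem_image]
  exact ⟨z, mem_range.2 hz, rfl⟩

omit h in
theorem P1_Q4 {r : ℕ} (hr : r ∈ P1) : r ∉ Q4 := fun h1 => Q4_P1 h1 hr
omit h in
theorem P1_T3 {r : ℕ} (hr : r ∈ P1) : r ∉ T3 := fun h1 => T3_P1 h1 hr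

/-- the offsets of a match -/
def offA (R u v r : ℕ) : ℕ :=
  onS P1 1 r + ((R &&& w1).testBit r).toNat +
    if r ∈ P1 then (u.testBit r).toNat + (v.testBit r).toNat else 0

omit h in
theorem offw_eq (x : ℕ) : offw x u v =
    pk 8 1024 fun r => if r ∈ P1 then (u.testBit r).toNat + (v.testBit r).toNat else 0 := by
  unfold offw
  have hb : ∀ (a b : ℕ → Bool), ∀ i < 1024, (a i).toNat + (b i).toNat < 2 ^ 8 := by
    intro a b i _
    have := Bool.toNat_le (a i)
    have := Bool.toNat_le (b i)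
    omega
  rw [SA_eq, SB_eq, pk_add, c13_eq, pk_land (hb _ _) (fun i _ => by
    unfold onS
    split_ifs <;> norm_num)]
  refine pk_congr fun r _ => ?_
  unfold onS
  by_cases hr : r ∈ P1
  · rw [if_pos hr, if_pos hr, bit_lowW, bit_highW, decide_eq_false (P1_Q4 hr),
      decide_eq_false (P1_T3 hr), decide_eq_true hr]
    cases u.testBit r <;> cases v.testBit r <;> simp
  · rw [if_neg hr, if_neg hr, Nat.and_zero]

theorem off_word : ∃ a : ℕ → ℕ, roota R + offw (R &&& w4) u v = pk 8 1024 a ∧ (∀ r, a r ≤ 97) ∧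
    ∀ z : Fin 13, z.val < 10 → a (2 ^ z.val) ≤ mm B z 10 + mm B z 11 + mm B z 12 + 1 := by
  refine ⟨offA R u v, ?_, ?_, ?_⟩
  · unfold roota
    rw [offw_eq, spd_eq (lt_of_land w1_lt), ← pk_one_P1, pk_add, pk_add]
    refine pk_congr fun r _ => ?_
    unfold offA
    rw [fld_one]
  · intro r
    have := Bool.toNat_le ((R &&& w1).testBit r)
    have := Bool.toNat_le (u.testBit r)
    have := Bool.toNat_le (v.testBit r)
    unfold offA onS
    split_ifs <;> omega
  · intro z hz
    have h1 := two_pow_mem_P1 hz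
    have hx := h.x1 z hz
    have hu := h.u1 z hz
    have hv := h.v1 z hz
    unfold offA onS
    rw [if_pos h1, if_pos h1, Nat.testBit_and, bit_w1, decide_eq_true h1, Bool.and_true,
      mm_comm B z 10, mm_comm B z 11, mm_comm B z 12]
    have k : ∀ (b : Bool) (n : ℕ), (b = true ↔ 1 ≤ n) → b.toNat ≤ n := by
      intro b n hbn
      cases b with
      | false => exact Nat.zero_le _
      | true => exact hbn.1 rfl
    have := k _ _ hx
    have := k _ _ hu
    have := k _ _ hv
    omega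

/-! ### words on the pairs -/

omit h in
theorem onP_add (a b : ℕ → ℕ) : pk 8 1024 (onP a) + pk 8 1024 (onP b) =
    pk 8 1024 (onP fun r => a r + b r) := by
  rw [pk_add]
  refine pk_congr fun r _ => ?_
  unfold onP
  split_ifs <;> rfl

omit h in
theorem onP_mul (c : ℕ) (a : ℕ → ℕ) : c * pk 8 1024 (onP a) = pk 8 1024 (onP fun r => c * a r) := by
  rw [mul_pk]
  refine pk_congr fun r _ => ?_
  unfold onP
  split_ifs <;> rfl

omit h in
theorem onP_sub {a b : ℕ → ℕ} (hab : ∀ r ∈ P2, b r ≤ a r) :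
    pk 8 1024 (onP a) - pk 8 1024 (onP b) = pk 8 1024 (onP fun r => a r - b r) := by
  rw [pk_sub fun r _ => by
    unfold onP
    split_ifs with hr
    · exact hab r hr
    · exact le_refl _]
  refine pk_congr fun r _ => ?_
  unfold onP
  split_ifs <;> rfl

/-! ### the sets of the three points -/

/-- triples with two of the points -/
def T2s (B : Fam') (k l : Fin 13) : Finset ℕ := T3.filter fun m => insert k (insert l (ofMask m)) ∈ B

/-- pairs with the three points -/
def bs (B : Fam') : Finset ℕ :=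
  P2.filter fun m => insert 12 (insert 11 (insert 10 (ofMask m))) ∈ B

/-- quads in at least two of the links -/
def Ms (B : Fam') : Finset ℕ := Q4.filter fun m =>
  2 ≤ (if insert 10 (ofMask m) ∈ B then 1 else 0) + (if insert 11 (ofMask m) ∈ B then 1 else 0) +
    (if insert 12 (ofMask m) ∈ B then 1 else 0)

omit h in
theorem T2s_sub (B : Fam') (k l : Fin 13) : T2s B k l ⊆ T3 := filter_subset _ _
omit h in
theorem bs_sub (B : Fam') : bs B ⊆ P2 := filter_subset _ _
omit h in
theorem Ms_sub (B : Fam') : Ms B ⊆ Q4 := filter_subset _ _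
omit h in
theorem Rk_sub (B : Fam') (k : Fin 13) : Rk B k ⊆ Q4 := filter_subset _ _

omit h in
theorem cS_filter (S : Finset ℕ) (p : ℕ → Prop) [DecidablePred p] (r : ℕ) :
    cS (S.filter p) r = (S.filter fun m => ofMask r ⊆ ofMask m ∧ p m).card := by
  unfold cS
  rw [filter_filter]
  refine congrArg Finset.card (filter_congr fun m _ => ?_)
  exact and_comm

omit h in
theorem card_T3 : T3.card = 120 := by
  unfold T3
  rw [List.toFinset_card_of_nodup (nodup_L _ _)]
  decide +kernel

omit h in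
theorem cS_le {S : Finset ℕ} (hS : S ⊆ T3) (r : ℕ) : cS S r ≤ 120 := by
  rw [← card_T3]
  unfold cS
  exact (card_le_card (filter_subset _ _)).trans (card_le_card hS)

omit h in
theorem half_lt {S : Finset ℕ} (hS : S ⊆ T3) (r : ℕ) : cS S r + ind (bs B) r < 128 := by
  have := cS_le hS r
  have := ind_le (bs B) r
  omega

omit h in
theorem half_tri {S : Finset ℕ} (hS : S ⊆ T3) :
    ((pk 8 1024 (onP (cS S)) + pk 8 1024 (onP (ind (bs B)))) >>> 1) &&& c127 =
      pk 8 1024 (onP fun r => (cS S r + ind (bs B) r) / 2) :=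
  half_word (half_lt hS)

theorem rootb_eq : rootb R = pk 8 1024 (onP (ind (bs B))) := by
  have h1 : rootb R = g (bs B) := by
    unfold rootb
    refine spd_set (lt_of_land p2_lt) (fun r hr => P2_lt (bs_sub B hr)) fun r _ => ?_
    rw [Nat.testBit_and, Nat.testBit_shiftRight, bit_p2, Bool.and_eq_true, decide_eq_true_eq]
    unfold bs
    rw [mem_filter]
    constructor
    · rintro ⟨h2, h3⟩
      exact ⟨h3, (h.xyz r h3).1 h2⟩
    · rintro ⟨h2, h3⟩
      exact ⟨(h.xyz r h2).2 h3, h2⟩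
  rw [h1, g_eq_pk (N := 1024) (fun r hr => P2_lt (bs_sub B hr))]
  refine pk_congr fun r _ => ?_
  unfold onP ind
  by_cases hr : r ∈ P2
  · rw [if_pos hr]
  · rw [if_neg hr, if_neg (fun h2 => hr (bs_sub B h2))]

omit h in
theorem nT_of {a : ℕ} {S : Finset ℕ} (hS : S ⊆ T3) (hb : ∀ r ∈ T3, (a.testBit r = true ↔ r ∈ S)) :
    nT (spd (a &&& p3)) = pk 8 1024 (onP (cS S)) := by
  have h1 : spd (a &&& p3) = g S := by
    refine spd_set (lt_of_land p3_lt) (fun r hr => T3_lt (hS hr)) fun r _ => ?_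
    rw [Nat.testBit_and, bit_p3, Bool.and_eq_true, decide_eq_true_eq]
    constructor
    · rintro ⟨h2, h3⟩
      exact (hb r h3).1 h2
    · intro h2
      exact ⟨(hb r (hS h2)).2 h2, hS h2⟩
  rw [h1]
  exact tri_prod hS

theorem rootn_xz : rootn R 1024 = pk 8 1024 (onP (cS (T2s B 12 10))) := by
  refine nT_of (T2s_sub _ _ _) fun r hr => ?_
  rw [Nat.testBit_shiftRight, h.xz r hr]
  unfold T2s
  rw [mem_filter]
  exact ⟨fun h1 => ⟨hr, h1⟩, fun h1 => h1.2⟩

theorem rootn_xy : rootn R 2048 = pk 8 1024 (onP (cS (T2s B 12 11))) := by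
  refine nT_of (T2s_sub _ _ _) fun r hr => ?_
  rw [Nat.testBit_shiftRight, h.xy r hr]
  unfold T2s
  rw [mem_filter]
  exact ⟨fun h1 => ⟨hr, h1⟩, fun h1 => h1.2⟩

theorem nQ_root : nQ (spd (R &&& w4)) = pk 8 1024 (onP (cS (Rk B 12))) := by
  have h1 : spd (R &&& w4) = g (Rk B 12) := by
    refine spd_set (lt_of_land w4_lt) (fun r hr => Q4_lt (Rk_sub B 12 hr)) fun r _ => ?_
    rw [Nat.testBit_and, bit_w4, Bool.and_eq_true, decide_eq_true_eq]
    constructor
    · rintro ⟨h2, h3⟩
      exact (h.x4 r h3).1 h2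
    · intro h2
      exact ⟨(h.x4 r (Rk_sub B 12 h2)).2 h2, Rk_sub B 12 h2⟩
  rw [h1]
  exact quad_prod1 (Rk_sub B 12)

/-- the root part of the pair word -/
def Fr (B : Fam') (r : ℕ) : ℕ :=
  cS (Rk B 12) r + 2 * (cS (T2s B 12 10) r + cS (T2s B 12 11) r) + 3 * ind (bs B) r -
    ((cS (T2s B 12 10) r + ind (bs B) r) / 2 + (cS (T2s B 12 11) r + ind (bs B) r) / 2)

theorem rootf_eq : rootf R = pk 8 1024 (onP (Fr B)) := by
  unfold rootf
  rw [rootb_eq h, rootn_xz h, rootn_xy h, nQ_root h,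
    half_tri (T2s_sub B 12 10), half_tri (T2s_sub B 12 11), onP_add, onP_mul, onP_mul, onP_add, onP_add,
    onP_add, onP_sub]
  · rfl
  · intro r _
    omega

/-! ### the words of a match -/

theorem trip_word : nT (SA (R &&& w4) u v &&& cT) = pk 8 1024 (onP (cS (T2s B 11 10))) := by
  have h1 : SA (R &&& w4) u v &&& cT = g (T2s B 11 10) := by
    rw [SA_eq, cT_eq, g_eq_pk (N := 1024) (fun r hr => T3_lt hr),
      g_eq_pk (N := 1024) (fun r hr => T3_lt (T2s_sub B 11 10 hr)),
      pk_land (fun i _ => lt_of_le_of_lt (Bool.toNat_le _) (by norm_num)) (fun i _ => ind_lt _ _)]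
    refine pk_congr fun r _ => ?_
    by_cases hr : r ∈ T3
    · have hy := h.yz r hr
      have h2 : r ∉ Q4 := fun h3 => Q4_T3 h3 hr
      have h3 : r ∉ P1 := T3_P1 hr
      have h4 : (u.testBit (1024 + r) = true) ↔ r ∈ T2s B 11 10 := by
        rw [hy]
        unfold T2s
        rw [mem_filter]
        exact ⟨fun h5 => ⟨hr, h5⟩, fun h5 => h5.2⟩
      rw [bit_lowW, decide_eq_false h2, decide_eq_false h3, decide_eq_true hr]
      unfold ind
      rw [if_pos hr]
      by_cases h5 : r ∈ T2s B 11 10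
      · rw [if_pos h5, h4.2 h5]
        simp
      · rw [if_neg h5, Bool.eq_false_iff.2 (fun h6 => h5 (h4.1 h6))]
        simp
    · unfold ind
      rw [if_neg hr, if_neg (fun h5 => hr (T2s_sub B 11 10 h5)), Nat.and_zero]
  rw [h1]
  exact tri_prod (T2s_sub B 11 10)

theorem quad_word : nQ ((SA (R &&& w4) u v + 2 * SB (R &&& w4) u v) &&& cQ3) =
    pk 8 1024 (onP fun r => cS (Rk B 11) r + cS (Rk B 10) r + cS (Ms B) r) := by
  have h1 : (SA (R &&& w4) u v + 2 * SB (R &&& w4) u v) &&& cQ3 =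
      pk 8 1024 (fun m => ind (Rk B 11) m + ind (Rk B 10) m + ind (Ms B) m) := by
    rw [SA_eq, SB_eq, mul_pk, pk_add, cQ3_eq, pk_land (fun i _ => ?_) (fun i _ => by
      unfold onS
      split_ifs <;> norm_num)]
    · refine pk_congr fun r _ => ?_
      by_cases hr : r ∈ Q4
      · have hx := h.x4 r hr
        have hu := h.u4 r hr
        have hv := h.v4 r hr
        have hm : r ∈ Ms B ↔ 2 ≤ (if r ∈ Rk B 10 then 1 else 0) + (if r ∈ Rk B 11 then 1 else 0) +
            (if r ∈ Rk B 12 then 1 else 0) := by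
          simp only [mem_Rk hr]
          unfold Ms
          rw [mem_filter]
          exact ⟨fun h5 => h5.2, fun h5 => ⟨hr, h5⟩⟩
        have hJ : (maj (R &&& w4) u v).testBit r =
            ((u.testBit r && v.testBit r) || (R.testBit r && (u.testBit r || v.testBit r))) := by
          show ((u &&& v) ||| ((R &&& w4) &&& (u ||| v))).testBit r = _
          rw [Nat.testBit_or, Nat.testBit_and, Nat.testBit_and, Nat.testBit_and, Nat.testBit_or,
            bit_w4, decide_eq_true hr, Bool.and_true]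
        have h2 : r ∉ T3 := Q4_T3 hr
        have h3 : r ∉ P1 := Q4_P1 hr
        rw [bit_lowW, bit_highW, hJ, decide_eq_true hr, decide_eq_false h2, decide_eq_false h3]
        unfold onS ind
        rw [if_pos hr]
        simp only [← hx, ← hu, ← hv] at hm ⊢
        by_cases hM : r ∈ Ms B
        · rw [if_pos hM]
          have h5 := hm.1 hM
          revert h5
          cases R.testBit r <;> cases u.testBit r <;> cases v.testBit r <;> simp
        · rw [if_neg hM]
          have h5 := fun h6 => hM (hm.2 h6)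
          revert h5
          cases R.testBit r <;> cases u.testBit r <;> cases v.testBit r <;> simp
      · unfold onS ind
        rw [if_neg hr, if_neg (fun h5 => hr (Rk_sub B 11 h5)),
          if_neg (fun h5 => hr (Rk_sub B 10 h5)), if_neg (fun h5 => hr (Ms_sub B h5)),
          Nat.and_zero]
    · have := Bool.toNat_le ((lowW (maj (R &&& w4) u v) u v).testBit i)
      have := Bool.toNat_le ((highW (maj (R &&& w4) u v) v).testBit i)
      show _ + 2 * _ < 2 ^ 8
      omega
  rw [h1]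
  exact quad_prod (Rk_sub B 11) (Rk_sub B 10) (Ms_sub B)

theorem pair_word (hB : OddCover B) : ∃ p : ℕ → ℕ, pairw R u v = pk 8 1024 p ∧
    (∀ r ∈ P2, p r ≤ Lam (Dec B B5) (ofMask r)) ∧ ∀ r, r ∉ P2 → p r = 0 := by
  have hc : ∀ r ∈ P2, Lam (Dec B B5) (ofMask r) + 15 +
      (cS (T2s B 12 11) r + ind (bs B) r) / 2 + (cS (T2s B 12 10) r + ind (bs B) r) / 2 +
      (cS (T2s B 11 10) r + ind (bs B) r) / 2 =
      cS (Rk B 12) r + cS (Rk B 11) r + cS (Rk B 10) r + cS (Ms B) r +
        2 * (cS (T2s B 12 11) r + cS (T2s B 12 10) r + cS (T2s B 11 10) r) +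
        3 * ind (bs B) r := by
    intro r hr
    have h1 := Pool.Agent.Helper28.TY.count3 hB hr
    have h2 : ind (bs B) r =
        if insert 12 (insert 11 (insert 10 (ofMask r))) ∈ B then 1 else 0 := by
      unfold ind bs
      simp [hr]
    unfold T2s Ms Rk
    rw [cS_filter, cS_filter, cS_filter, cS_filter, cS_filter, cS_filter, cS_filter, h2]
    exact h1
  refine ⟨onP fun r => cS (Rk B 11) r + cS (Rk B 10) r + cS (Ms B) r +
    2 * cS (T2s B 11 10) r + Fr B r - ((cS (T2s B 11 10) r + ind (bs B) r) / 2 + 15), ?_, ?_, ?_⟩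
  · unfold pairw
    show nQ ((SA (R &&& w4) u v + 2 * SB (R &&& w4) u v) &&& cQ3) +
      2 * nT (SA (R &&& w4) u v &&& cT) + rootf R -
      ((((nT (SA (R &&& w4) u v &&& cT) + rootb R) >>> 1) &&& c127) + c15) = _
    have e15 : c15 = pk 8 1024 (onP fun _ => 15) := c15_eq
    rw [quad_word h, trip_word h, rootf_eq h, rootb_eq h,
      half_tri (T2s_sub B 11 10), e15, onP_mul, onP_add, onP_add, onP_add,
      onP_sub]
    intro r hr
    have := hc r hr
    unfold Fr
    omega
  · intro r hr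
    have := hc r hr
    unfold onP
    rw [if_pos hr]
    show _ - _ ≤ _
    unfold Fr
    omega
  · intro r hr
    unfold onP
    rw [if_neg hr]

end

/-- **the words of a match** -/
theorem wordLaw (B : Fam') (R u v : ℕ) (hB : OddCover B) (hR : IsRoot B R)
    (hu : cub 11 (LYL B) = u) (hv : cub 11 (LZL B) = v) : WordLaw B R u v :=
  have h := bits_of_lanes hB hR hu hv
  ⟨par_word h, pair_word h hB, off_word h⟩

/-- **THE CALLBACK OF STAGE A IS SOUND** -/
theorem cbLaw (D : Fam') (h : ℕ) : CbLaw cbA D h := cbLaw_of_words wordLaw D h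

end Pool.Agent.Helper52.TY.CbA
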