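import Pool.Agent.Helper52.TY.ExpandC

/-!
MP_8ee768_co, project TH-Y': the expansion program `expandC` from dense lanes (stride 512) to cube
lanes (stride 2048), chunks of 64 lanes, and its correctness. The program is linear for `|||`, so
it is determined by its values on single bits, which the kernel checks.
-/

set_option autoImplicit false

namespace Pool.Agent.Helper52.TY

/-- one step: the bits in the mask `M` move up by `s` places, the others stay -/
def eStep (M s x : ℕ) : ℕ :=
  Nat.lor (Nat.shiftLeft (Nat.land x M) s) (Nat.xor x (Nat.land x M))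

/-- the program -/
def expandC (x : ℕ) : ℕ :=
  eStep eM16 1 (eStep eM15 2 (eStep eM14 4 (eStep eM13 8 (eStep eM12 16 (eStep eM11 32
    (eStep eM10 64 (eStep eM9 128 (eStep eM8 256 (eStep eM7 512 (eStep eM6 1024
      (eStep eM5 1536 (eStep eM4 3072 (eStep eM3 6144 (eStep eM2 12288 (eStep eM1 24576
        (eStep eM0 49152 x))))))))))))))))

/-- linear for bitwise or -/
def Lin (f : ℕ → ℕ) : Prop := f 0 = 0 ∧ ∀ x y, f (x ||| y) = f x ||| f y

theorem lin_eStep (M s : ℕ) : Lin (eStep M s) := by
  have e : ∀ x, eStep M s x = ((x &&& M) <<< s) ||| (x ^^^ (x &&& M)) := fun _ => rfl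
  refine ⟨?_, fun x y => ?_⟩
  · rw [e]
    simp
  · rw [e, e, e]
    refine Nat.eq_of_testBit_eq fun i => ?_
    simp only [Nat.testBit_or, Nat.testBit_shiftLeft, Nat.testBit_xor, Nat.testBit_and]
    cases x.testBit i <;> cases y.testBit i <;> cases M.testBit i <;>
      cases x.testBit (i - s) <;> cases y.testBit (i - s) <;> cases M.testBit (i - s) <;>
      cases decide (i ≥ s) <;> rfl

theorem Lin.comp {f g : ℕ → ℕ} (hf : Lin f) (hg : Lin g) : Lin (fun x => f (g x)) := by
  refine ⟨?_, fun x y => ?_⟩
  · show f (g 0) = 0
    rw [hg.1, hf.1]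
  · show f (g (x ||| y)) = f (g x) ||| f (g y)
    rw [hg.2, hf.2]

theorem lin_expandC : Lin expandC := by
  unfold expandC
  exact (lin_eStep eM16 1).comp ((lin_eStep eM15 2).comp ((lin_eStep eM14 4).comp
    ((lin_eStep eM13 8).comp ((lin_eStep eM12 16).comp ((lin_eStep eM11 32).comp
    ((lin_eStep eM10 64).comp ((lin_eStep eM9 128).comp ((lin_eStep eM8 256).comp
    ((lin_eStep eM7 512).comp ((lin_eStep eM6 1024).comp ((lin_eStep eM5 1536).comp
    ((lin_eStep eM4 3072).comp ((lin_eStep eM3 6144).comp ((lin_eStep eM2 12288).comp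
    ((lin_eStep eM1 24576).comp (lin_eStep eM0 49152))))))))))))))))

/-- a linear program is determined by its values on single bits -/
theorem Lin.testBit {f : ℕ → ℕ} (hf : Lin f) (q : ℕ) : ∀ (n x : ℕ), x < 2 ^ n →
    ((f x).testBit q = true ↔ ∃ b < n, x.testBit b = true ∧ (f (2 ^ b)).testBit q = true) := by
  intro n
  induction n with
  | zero =>
    intro x hx
    have h0 : x = 0 := by
      rw [pow_zero] at hx
      omega
    subst h0
    rw [hf.1]
    simp
  | succ n ih =>
    intro x hx
    have hmod : x % 2 ^ n < 2 ^ n := Nat.mod_lt _ (Nat.two_pow_pos n)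
    have hsplit : x = (x % 2 ^ n) ||| (if x.testBit n = true then 2 ^ n else 0) := by
      refine Nat.eq_of_testBit_eq fun i => ?_
      rw [Nat.testBit_or, Nat.testBit_mod_two_pow]
      rcases lt_trichotomy i n with h | h | h
      · have h1 : (if x.testBit n = true then 2 ^ n else 0).testBit i = false := by
          split_ifs
          · exact Nat.testBit_two_pow_of_ne (by omega)
          · exact Nat.zero_testBit i
        rw [h1]
        simp [h]
      · subst h
        by_cases h2 : x.testBit i = true
        · rw [if_pos h2, Nat.testBit_two_pow_self, h2]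
          simp
        · rw [if_neg h2]
          simp only [Bool.not_eq_true] at h2
          simp [h2]
      · have h1 : (if x.testBit n = true then 2 ^ n else 0).testBit i = false := by
          split_ifs
          · exact Nat.testBit_two_pow_of_ne (by omega)
          · exact Nat.zero_testBit i
        rw [h1, Nat.testBit_eq_false_of_lt (lt_of_lt_of_le hx (Nat.pow_le_pow_right
          (by norm_num) h))]
        simp [Nat.not_lt.2 h.le]
    have h3 : (f x).testBit q = ((f (x % 2 ^ n)).testBit q ||
        (f (if x.testBit n = true then 2 ^ n else 0)).testBit q) := by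
      conv_lhs => rw [hsplit, hf.2, Nat.testBit_or]
    rw [h3, Bool.or_eq_true, ih _ hmod]
    constructor
    · rintro (⟨b, hb, h4, h5⟩ | h4)
      · refine ⟨b, by omega, ?_, h5⟩
        rw [Nat.testBit_mod_two_pow] at h4
        simp only [Bool.and_eq_true] at h4
        exact h4.2
      · by_cases h2 : x.testBit n = true
        · rw [if_pos h2] at h4
          exact ⟨n, by omega, h2, h4⟩
        · rw [if_neg h2, hf.1, Nat.zero_testBit] at h4
          exact absurd h4 Bool.false_ne_true
    · rintro ⟨b, hb, h4, h5⟩
      rcases Nat.lt_succ_iff_lt_or_eq.1 hb with h6 | h6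
      · left
        refine ⟨b, h6, ?_, h5⟩
        rw [Nat.testBit_mod_two_pow]
        simp [h6, h4]
      · right
        subst h6
        rw [if_pos h4]
        exact h5

/-- the masks of weight 0, 1, 3, 4, 11 below 2048, increasing -/
def dms : List ℕ := (List.range 2048).filter fun m =>
  let w := (List.range 11).foldl (fun a i => a + (m >>> i) % 2) 0
  w == 0 || w == 1 || w == 3 || w == 4 || w == 11

end Pool.Agent.Helper52.TY
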