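import Mathlib
import Pool.Agent.Helper49.TY.FrameE
import Pool.Agent.Helper63.TY.Key
import Pool.Agent.Helper82.TY.Lay

/-!
MP_8ee768_co, project TH-Y': layered lanes of a frame.

`Lay D` for a family `D` on `{0, .., 11}` with apex `11`; `LYL B`, `LZL B` are the layered lanes of
the points `11` and `10` in the frame `12, 11, 10`.
-/

set_option autoImplicit false

namespace Pool.Agent.Helper52.TY

open Finset
open Pool.Agent.Helper89.CV (OddCover ofMask)
open Pool.Agent.Helper97.CV
open Pool.Agent.Helper79.CV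
open Pool.Agent.Helper33.CV
open Pool.Agent.Helper82.TY (below sub_iff_below Best Lay mem_lay lay_mapF)

/-- families of sets of points -/
abbrev Fam' := Finset (Finset (Fin 13))

/-! ### lanes of a frame -/

/-- the layered lane of the point `11` -/
def LYL (B : Fam') : Fam' := Lay (moved 1 B 11)

/-- the layered lane of the point `10`; the point `10` of the lane stands for `11` -/
def LZL (B : Fam') : Fam' := Lay (moved (Equiv.swap 10 11) B 10)

theorem mk_lt_of_below {s : Finset (Fin 13)} (h : s ⊆ below 11) : mk s < 2048 := by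
  have e : (2048 : ℕ) = 2 ^ 11 := by norm_num
  rw [e, mk_lt_iff]
  exact fun a ha => mem_below.1 (h ha)

/-- membership in the lane of a moved link -/
theorem mem_lay_moved {σ : Equiv.Perm (Fin 13)} {B : Fam'} {y : Fin 13}
    {s t : Finset (Fin 13)} (hs : s ⊆ below 11) (ht : mapS σ t = s) (hy : y ∉ t) :
    s ∈ Lay (moved σ B y) ↔ (t.card = 4 ∧ insert y t ∈ B) ∨ (t.card = 3 ∧ 2 ≤ cnt B (insert y t)) ∨
      (t.card = 1 ∧ 21 ≤ cnt B (insert y t)) ∨ (t.card = 0 ∧ ((link B y).card + 7) % 2 = 1) ∨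
      (t.card = 11 ∧ ((link B y).card + 7) / 2 % 2 = 1) := by
  have h2 : (moved σ B y).card = (link B y).card := by
    unfold moved
    rw [card_mapF]
  rw [mem_lay, mem_moved hs ht hy, cnt_moved hs ht hy, h2]
  have h1 : s.card = t.card := by rw [← ht, card_mapS]
  rw [h1, and_iff_right (mk_lt_of_below hs)]

/-- the lane of `11` -/
theorem mem_LYL {B : Fam'} {s : Finset (Fin 13)} (hs : s ⊆ below 11) :
    s ∈ LYL B ↔ (s.card = 4 ∧ insert 11 s ∈ B) ∨ (s.card = 3 ∧ 2 ≤ cnt B (insert 11 s)) ∨
      (s.card = 1 ∧ 21 ≤ cnt B (insert 11 s)) ∨ (s.card = 0 ∧ ((link B 11).card + 7) % 2 = 1) ∨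
      (s.card = 11 ∧ ((link B 11).card + 7) / 2 % 2 = 1) :=
  mem_lay_moved hs (mapS_one s) (notMem_of_subset_below hs (le_refl _))

/-- the lane of `10`, sets avoiding `11` -/
theorem mem_LZL {B : Fam'} {s : Finset (Fin 13)} (hs : s ⊆ below 10) :
    s ∈ LZL B ↔ (s.card = 4 ∧ insert 10 s ∈ B) ∨ (s.card = 3 ∧ 2 ≤ cnt B (insert 10 s)) ∨
      (s.card = 1 ∧ 21 ≤ cnt B (insert 10 s)) ∨ (s.card = 0 ∧ ((link B 10).card + 7) % 2 = 1) ∨
      (s.card = 11 ∧ ((link B 10).card + 7) / 2 % 2 = 1) :=
  mem_lay_moved (hs.trans (below_mono (by norm_num))) (mapS_swap10_below hs)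
    (notMem_of_subset_below hs (le_refl _))

/-- the lane of `10`, sets through `11` (coded by `10`) -/
theorem mem_LZL' {B : Fam'} {s : Finset (Fin 13)} (hs : s ⊆ below 10) :
    insert 10 s ∈ LZL B ↔ ((insert 11 s).card = 4 ∧ insert 10 (insert 11 s) ∈ B) ∨
      ((insert 11 s).card = 3 ∧ 2 ≤ cnt B (insert 10 (insert 11 s))) ∨
      ((insert 11 s).card = 1 ∧ 21 ≤ cnt B (insert 10 (insert 11 s))) ∨
      ((insert 11 s).card = 0 ∧ ((link B 10).card + 7) % 2 = 1) ∨
      ((insert 11 s).card = 11 ∧ ((link B 10).card + 7) / 2 % 2 = 1) := by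
  refine mem_lay_moved (t := insert 11 s) ?_ ?_ ?_
  · intro a ha
    rw [mem_insert] at ha
    rcases ha with rfl | ha
    · exact mem_below.2 (by decide)
    · exact below_mono (by norm_num) (hs ha)
  · rw [mapS_insert, Equiv.swap_apply_right, mapS_swap10_below hs]
  · rw [mem_insert, not_or]
    exact ⟨by decide, notMem_of_subset_below hs (le_refl _)⟩

/-- the lanes agree on the sets through the last point, apart from the full set -/
theorem agree_LYL_LZL (B : Fam') {s : Finset (Fin 13)} (hs : s ⊆ below 10)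
    (hc : s.card ≠ 10) : insert 10 s ∈ LYL B ↔ insert 10 s ∈ LZL B := by
  have h10 : (10 : Fin 13) ∉ s := notMem_of_subset_below hs (le_refl _)
  have h11 : (11 : Fin 13) ∉ s := notMem_of_subset_below hs (by decide)
  have hs' : insert 10 s ⊆ below 11 := by
    intro a ha
    rw [mem_insert] at ha
    rcases ha with rfl | ha
    · exact mem_below.2 (by decide)
    · exact below_mono (by norm_num) (hs ha)
  rw [mem_LZL' hs, mem_LYL hs', insert_comm 11 10 s, card_insert_of_notMem h10,
    card_insert_of_notMem h11]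
  have h1 : ¬ s.card + 1 = 0 := by omega
  have h2 : ¬ s.card + 1 = 11 := by omega
  rw [show (s.card + 1 = 0) = False from eq_false h1, show (s.card + 1 = 11) = False from
    eq_false h2]
  simp only [false_and, or_false]

theorem subset_below_ofMask {n m : ℕ} (hm : m < 2 ^ n) : ofMask m ⊆ below n := by
  intro a ha
  rw [mem_below]
  rw [mem_ofMask] at ha
  by_contra h1
  rw [Nat.testBit_eq_false_of_lt (lt_of_lt_of_le hm
    (Nat.pow_le_pow_right (by norm_num) (by omega)))] at ha
  exact Bool.false_ne_true ha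

/-- the upper halves of the two lanes agree, apart from the last bit -/
theorem agree_lay (B : Fam') :
    Pool.Agent.Helper63.TY.Agree (cub 11 (LYL B)) (cub 11 (LZL B)) := by
  intro m hm
  have e2 : (2 : ℕ) ^ 10 = 1024 := by norm_num
  have h := cub_shift 10
  have e : (10 : Fin 13).val = 10 := rfl
  simp only [e, e2] at h
  rw [← Nat.testBit_shiftRight, ← Nat.testBit_shiftRight, h, h,
    testBit_cub _ (by omega), testBit_cub _ (by omega), decide_eq_decide, mem_link, mem_link]
  have hs := subset_below_ofMask (n := 10) (m := m) (by omega)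
  rw [agree_LYL_LZL B hs]
  intro hc
  have h5 : below 10 = ofMask m := (eq_of_subset_of_card_le hs (by
    rw [hc]
    decide)).symm
  have h6 : mk (ofMask m) = 1023 := by
    rw [← h5]
    decide
  rw [mk_ofMask (by omega)] at h6
  omega

/-- two lanes (cube codes) of the frame `12, 11, 10` are impossible under `H` -/
def LaneDeadL (H : Fam' → Prop) (u v : ℕ) : Prop :=
  ∀ B, H B → cub 11 (LYL B) = u → cub 11 (LZL B) = v → False

theorem LaneDeadL.mono {H H' : Fam' → Prop} {u v : ℕ} (h : LaneDeadL H u v)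
    (hH : ∀ B, H' B → H B) : LaneDeadL H' u v := fun B hB => h B (hH B hB)

/-- from complete lists of lanes -/
theorem dead_of_lanesL {H : Fam' → Prop} {CY CZ : Set ℕ}
    (hY : ∀ B, H B → cub 11 (LYL B) ∈ CY) (hZ : ∀ B, H B → cub 11 (LZL B) ∈ CZ)
    (hk : ∀ u ∈ CY, ∀ v ∈ CZ, Pool.Agent.Helper63.TY.Agree u v → LaneDeadL H u v) (B : Fam') :
    ¬ H B :=
  fun hB => hk _ (hY B hB) _ (hZ B hB) (agree_lay B) B hB rfl rfl

/-! ### composed frames -/

theorem fix2_swap {a b : Fin 13} (ha : a.val < 11) (hb : b.val < 11) : Fix2 (Equiv.swap a b) := by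
  constructor
  · refine Equiv.swap_apply_of_ne_of_ne ?_ ?_
    · rintro rfl
      exact absurd ha (by decide)
    · rintro rfl
      exact absurd hb (by decide)
  · refine Equiv.swap_apply_of_ne_of_ne ?_ ?_
    · rintro rfl
      exact absurd ha (by decide)
    · rintro rfl
      exact absurd hb (by decide)

theorem Fix2.comm_sw {ρ : Equiv.Perm (Fin 13)} (h : Fix2 ρ) : sw * ρ = ρ * sw := by
  have h1 : Equiv.swap (11 : Fin 13) 12 = Equiv.swap (ρ 11) (ρ 12) := by rw [h.1, h.2]
  unfold sw
  conv_lhs => rw [h1]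
  rw [Equiv.swap_apply_apply, inv_mul_cancel_right]

/-- a relabelling fixing `11` and `12` acts on the moved link -/
theorem moved_mul {ρ σ : Equiv.Perm (Fin 13)} (h : Fix2 ρ) (B : Fam') (y : Fin 13) :
    moved (ρ * σ) B y = mapF ρ (moved σ B y) := by
  unfold moved
  rw [← mapF_mul, ← mul_assoc, Fix2.comm_sw h, mul_assoc]

/-- moving the cover -/
theorem moved_mapF (π σ : Equiv.Perm (Fin 13)) (B : Fam') (y : Fin 13) :
    moved σ (mapF π B) (π y) = moved (σ * π) B y := by
  unfold moved
  rw [link_mapF, ← mapF_mul, mul_assoc]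

/-- the lane of `y` in a frame moved by `ρ` from its base frame -/
theorem lay_moved_mul {ρ σ : Equiv.Perm (Fin 13)} (h : Fix2 ρ) (B : Fam') (y : Fin 13) :
    Lay (moved (ρ * σ) B y) = mapF ρ (Lay (moved σ B y)) := by
  rw [moved_mul h, lay_mapF h.1 h.2]

theorem LYL_mapF {π : Equiv.Perm (Fin 13)} {y : Fin 13} (hy : π y = 11) (B : Fam') :
    LYL (mapF π B) = Lay (moved π B y) := by
  unfold LYL
  rw [← hy, moved_mapF, one_mul]

theorem LZL_mapF {π : Equiv.Perm (Fin 13)} {z : Fin 13} (hz : π z = 10) (B : Fam') :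
    LZL (mapF π B) = Lay (moved (Equiv.swap 10 11 * π) B z) := by
  unfold LZL
  conv_lhs => rw [← hz]
  rw [moved_mapF, hz]

end Pool.Agent.Helper52.TY
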