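import Mathlib
import Pool.Agent.Helper52.TY.LayLane

/-!
MP_8ee768_co, project TH-Y': the layers of the centre of a frame.

`LayC D` is coded in the root cube of a frame: the quads of `D` on `{0, .., 11}`, the points of
degree at least `21` and the two binary digits of `D.card - 57` at `∅` and `{0, .., 11}`.
-/

set_option autoImplicit false

namespace Pool.Agent.Helper52.TY

open Finset
open Pool.Agent.Helper89.CV (OddCover ofMask)
open Pool.Agent.Helper97.CV
open Pool.Agent.Helper79.CV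
open Pool.Agent.Helper33.CV
open Pool.Agent.Helper82.TY (below sub_iff_below Best Lay)

/-- the layers of a centre with apex `12` -/
def LayC (D : Fam') : Fam' :=
  univ.filter fun s => mk s < 4096 ∧
    ((s.card = 4 ∧ s ∈ D) ∨ (s.card = 1 ∧ 21 ≤ cnt D s) ∨
      (s.card = 0 ∧ (D.card + 7) % 2 = 1) ∨ (s.card = 12 ∧ (D.card + 7) / 2 % 2 = 1))

theorem mem_layC {D : Fam'} {s : Finset (Fin 13)} :
    s ∈ LayC D ↔ mk s < 4096 ∧
      ((s.card = 4 ∧ s ∈ D) ∨ (s.card = 1 ∧ 21 ≤ cnt D s) ∨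
        (s.card = 0 ∧ (D.card + 7) % 2 = 1) ∨ (s.card = 12 ∧ (D.card + 7) / 2 % 2 = 1)) := by
  unfold LayC
  rw [mem_filter]
  exact ⟨fun h => h.2, fun h => ⟨mem_univ s, h⟩⟩

theorem mem_layC_four {D : Fam'} {s : Finset (Fin 13)} (h : s.card = 4) :
    s ∈ LayC D ↔ mk s < 4096 ∧ s ∈ D := by
  rw [mem_layC, h]
  simp

theorem mem_layC_one {D : Fam'} {s : Finset (Fin 13)} (h : s.card = 1) :
    s ∈ LayC D ↔ mk s < 4096 ∧ 21 ≤ cnt D s := by
  rw [mem_layC, h]
  omega

theorem mem_layC_zero {D : Fam'} {s : Finset (Fin 13)} (h : s.card = 0) :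
    s ∈ LayC D ↔ (D.card + 7) % 2 = 1 := by
  rw [mem_layC, h]
  have h1 : mk s < 4096 := by
    rw [card_eq_zero] at h
    subst h
    decide
  omega

theorem mem_layC_twelve {D : Fam'} {s : Finset (Fin 13)} (h : s.card = 12) :
    s ∈ LayC D ↔ mk s < 4096 ∧ (D.card + 7) / 2 % 2 = 1 := by
  rw [mem_layC, h]
  omega

theorem mk_lt_4096 {s : Finset (Fin 13)} : mk s < 4096 ↔ (12 : Fin 13) ∉ s := by
  rw [show (4096 : ℕ) = 2 ^ 12 by norm_num, mk_lt_iff]
  constructor
  · intro h h1
    exact absurd (h _ h1) (by decide)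
  · intro h1 a ha
    by_contra h3
    have := a.isLt
    exact h1 (by rwa [show (12 : Fin 13) = a from Fin.ext (by
      have e : (12 : Fin 13).val = 12 := rfl
      rw [e]
      omega)])

theorem mk_mapS_lt' {σ : Equiv.Perm (Fin 13)} (h12 : σ 12 = 12) {s : Finset (Fin 13)} :
    mk (mapS σ s) < 4096 ↔ mk s < 4096 := by
  rw [mk_lt_4096, mk_lt_4096]
  have h2 : (12 : Fin 13) ∈ mapS σ s ↔ (12 : Fin 13) ∈ s := by
    conv_lhs => rw [← h12]
    exact mem_mapS
  rw [h2]

/-- the layers are equivariant under the relabellings which fix `12` -/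
theorem layC_mapF {σ : Equiv.Perm (Fin 13)} (h12 : σ 12 = 12) (D : Fam') :
    LayC (mapF σ D) = mapF σ (LayC D) := by
  ext s
  obtain ⟨t, rfl⟩ : ∃ t, s = mapS σ t := ⟨mapS σ.symm s, (mapS_mapS_symm σ s).symm⟩
  rw [mem_mapF, mem_layC, mem_layC, mk_mapS_lt' h12, card_mapS, mem_mapF, cnt_mapF, card_mapF]

/-! ### the digits of the excess of a point -/

theorem two_card_link {B : Fam'} (hB : OddCover B) (x : Fin 13) :
    2 * (link B x).card = 114 + MM B x := by
  rw [card_link]
  exact two_cnt_point hB x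

/-- the digits of the card give the excess, up to `6` -/
theorem MM_digits {B : Fam'} (hB : OddCover B) (x : Fin 13) (h6 : MM B x ≤ 6) :
    MM B x = 2 * (((link B x).card + 7) % 2 + 2 * (((link B x).card + 7) / 2 % 2)) := by
  have h := two_card_link hB x
  omega

end Pool.Agent.Helper52.TY
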