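import Pool.Agent.Helper79.CV.Star
import Pool.Agent.Helper4.CV.Stages

/-!
MP_8ee768_co, project TH-Y': abstract drivers of the stages D and A.

`CenD r` and `CenA r` are the statements the kernel engines prove for one class representative
`r` of the links with `MM ≤ 6`.
-/

set_option autoImplicit false

namespace Pool.Agent.Helper52.TY

open Finset
open Pool.Agent.Helper89.CV (OddCover)
open Pool.Agent.Helper97.CV
open Pool.Agent.Helper82.TY (Best)
open Pool.Agent.Helper79.CV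
open Pool.Agent.Helper4.CV (StD StA)

/-- the centre with link `r` has no light neighbour with excess at least 2 -/
def CenD (r : ℕ) : Prop := ∀ (B : Finset (Finset (Fin 13))) (p : Fin 13), Best B →
  link B 12 = fam 12 4 r → p ≠ 12 → MM B 12 ≤ 6 → MM B p ≤ 6 → 2 ≤ mm B 12 p → False

/-- the centre with link `r` has no two light neighbours; `p < q` are the first two of them, so
the other neighbours below `q` are heavy -/
def CenA (r : ℕ) : Prop := ∀ (B : Finset (Finset (Fin 13))) (p q : Fin 13), Best B →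
  link B 12 = fam 12 4 r → p < q → q < 12 → MM B 12 ≤ 6 → MM B p ≤ 6 → MM B q ≤ 6 →
  1 ≤ mm B 12 p → 1 ≤ mm B 12 q →
  (∀ t : Fin 13, t < q → t ≠ p → 1 ≤ mm B 12 t → 8 ≤ MM B t) → False

/-- size of the lane of a light neighbour of excess 1 -/
theorem lane_card_le {B : Finset (Finset (Fin 13))} (hB : OddCover B) {p : Fin 13}
    (hp : p ≠ 12) (hM : MM B p ≤ 6) (h1 : mm B 12 p = 1) : (lane B p).card ≤ 39 := by
  have h := two_mul_card_lane hB hp
  rw [h1] at h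
  omega

theorem StD_of {P : Finset (Finset (Fin 13)) → Prop} (hP : Inv P)
    (hPB : ∀ B, Best B → ∀ x, P (link B x)) {reps : List ℕ} (hR : RootOK 6 P reps)
    (hC : ∀ r ∈ reps, CenD r) : StD := by
  intro B hB x y hxy hx hy h2
  obtain ⟨σ, hσ, r, hr, hlink⟩ := root_wlog hB.odd hP hR hx (hPB B hB x)
  have hB' := hB.map σ
  have e1 : MM (mapF σ B) 12 = MM B x := by rw [← hσ, MM_mapF hB.odd]
  have e2 : MM (mapF σ B) (σ y) = MM B y := MM_mapF hB.odd σ y
  have e3 : mm (mapF σ B) 12 (σ y) = mm B x y := by rw [← hσ, mm_mapF hB.odd σ hxy]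
  refine hC r hr (mapF σ B) (σ y) hB' hlink ?_ (by rw [e1]; exact hx) (by rw [e2]; exact hy)
    (by rw [e3]; exact h2)
  rw [← hσ]
  exact σ.injective.ne hxy.symm

theorem StA_of {P : Finset (Finset (Fin 13)) → Prop} (hP : Inv P)
    (hPB : ∀ B, Best B → ∀ x, P (link B x)) {reps : List ℕ} (hR : RootOK 6 P reps)
    (hC : ∀ r ∈ reps, CenA r) : StA := by
  intro B hB x y z hxy hxz hyz hx hy hz m1 m2
  obtain ⟨σ, hσ, r, hr, hlink⟩ := root_wlog hB.odd hP hR hx (hPB B hB x)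
  have hB' := hB.map σ
  have e1 : MM (mapF σ B) 12 = MM B x := by rw [← hσ, MM_mapF hB.odd]
  have e2 : ∀ u, MM (mapF σ B) (σ u) = MM B u := fun u => MM_mapF hB.odd σ u
  have e3 : ∀ u, x ≠ u → mm (mapF σ B) 12 (σ u) = mm B x u := fun u hu => by
    rw [← hσ, mm_mapF hB.odd σ hu]
  have hlt : ∀ a : Fin 13, a ≠ 12 → a < 12 := by decide
  have hy12 : σ y ≠ 12 := by
    rw [← hσ]
    exact σ.injective.ne hxy.symm
  have hz12 : σ z ≠ 12 := by
    rw [← hσ]
    exact σ.injective.ne hxz.symm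
  set C := mapF σ B with hCdef
  let S : Finset (Fin 13) := univ.filter fun q => q < 12 ∧ MM C q ≤ 6 ∧ 1 ≤ mm C 12 q ∧
    ∃ p, p < q ∧ MM C p ≤ 6 ∧ 1 ≤ mm C 12 p
  have hmem : ∀ q, q ∈ S ↔ q < 12 ∧ MM C q ≤ 6 ∧ 1 ≤ mm C 12 q ∧
      ∃ p, p < q ∧ MM C p ≤ 6 ∧ 1 ≤ mm C 12 p := fun q => by
    simp only [S, mem_filter, mem_univ, true_and]
  have ly : MM C (σ y) ≤ 6 ∧ 1 ≤ mm C 12 (σ y) := by
    rw [e2, e3 y hxy]
    exact ⟨hy, m1⟩
  have lz : MM C (σ z) ≤ 6 ∧ 1 ≤ mm C 12 (σ z) := by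
    rw [e2, e3 z hxz]
    exact ⟨hz, m2⟩
  have hne : S.Nonempty := by
    rcases lt_trichotomy (σ y) (σ z) with h3 | h3 | h3
    · exact ⟨σ z, (hmem _).2 ⟨hlt _ hz12, lz.1, lz.2, σ y, h3, ly.1, ly.2⟩⟩
    · exact absurd (σ.injective h3) hyz
    · exact ⟨σ y, (hmem _).2 ⟨hlt _ hy12, ly.1, ly.2, σ z, h3, lz.1, lz.2⟩⟩
  obtain ⟨h12, hMq, hmq, p, hpq, hMp, hmp⟩ := (hmem _).1 (S.min'_mem hne)
  refine hC r hr C p (S.min' hne) hB' hlink hpq h12 (by rw [e1]; exact hx) hMp hMq hmp hmq ?_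
  intro t ht htp hmt
  by_contra h8
  have hev := MM_even hB'.odd t
  have hMt : MM C t ≤ 6 := by
    obtain ⟨k, hk⟩ := hev
    omega
  rcases lt_or_gt_of_ne htp with h4 | h4
  · have h5 : p ∈ S := (hmem _).2 ⟨lt_trans hpq h12, hMp, hmp, t, h4, hMt, hmt⟩
    exact absurd (S.min'_le p h5) (not_le.2 hpq)
  · have h5 : t ∈ S := (hmem _).2 ⟨lt_trans ht h12, hMt, hmt, p, h4, hMp, hmp⟩
    exact absurd (S.min'_le t h5) (not_le.2 ht)

end Pool.Agent.Helper52.TY
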