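import Mathlib
import Pool.Agent.Helper52.TY.LayLane
import Pool.Agent.Helper52.TY.StageA

/-!
MP_8ee768_co, project TH-Y', stage A: from a centre to the frames of its pairs of positions.

The frame of the pair `p < q` is `piA p q`: exchange `p, 11`, then `q', 10`, where `q'` is the place
of `q` (`q` or, for `q = 11`, `p`).
-/

set_option autoImplicit false

namespace Pool.Agent.Helper52.TY

open Finset
open Pool.Agent.Helper89.CV (OddCover ofMask)
open Pool.Agent.Helper97.CV
open Pool.Agent.Helper79.CV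
open Pool.Agent.Helper33.CV
open Pool.Agent.Helper82.TY (below sub_iff_below Best Lay)

/-- the place of `q` after the exchange of `p` and `11` -/
def qA (p q : Fin 13) : Fin 13 := if q = 11 then p else q

/-- the frame of the pair `p < q` -/
def piA (p q : Fin 13) : Equiv.Perm (Fin 13) := Equiv.swap (qA p q) 10 * Equiv.swap p 11

/-- from the base frame of `q` to the frame of the pair, for the lane of `q` -/
def tauA (p q : Fin 13) : Equiv.Perm (Fin 13) :=
  (if q.val ≤ 9 then Equiv.swap p q else 1) * Equiv.swap p 10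

theorem piA_12 : ∀ p q : Fin 13, p < q → q < 12 → piA p q 12 = 12 := by decide

theorem piA_p : ∀ p q : Fin 13, p < q → q < 12 → piA p q p = 11 := by decide

theorem piA_q : ∀ p q : Fin 13, p < q → q < 12 → piA p q q = 10 := by decide

theorem tauA_mul (p q : Fin 13) (hpq : p < q) (hq : q < 12) :
    Equiv.swap 10 11 * piA p q = tauA p q * Equiv.swap q 11 := by
  have h : ∀ p q : Fin 13, p < q → q < 12 → ∀ a : Fin 13,
      (Equiv.swap 10 11 * piA p q : Equiv.Perm (Fin 13)) a =
        (tauA p q * Equiv.swap q 11 : Equiv.Perm (Fin 13)) a := by decide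
  exact Equiv.ext (h p q hpq hq)

theorem fix2_qA : ∀ p q : Fin 13, p < q → q < 12 → (qA p q).val < 11 := by decide

theorem fix2_tauA {p q : Fin 13} (hpq : p < q) (hq : q < 12) : Fix2 (tauA p q) := by
  have h : ∀ p q : Fin 13, p < q → q < 12 → tauA p q 11 = 11 ∧ tauA p q 12 = 12 := by decide
  exact h p q hpq hq

/-- the lane of `p` in the frame of the pair -/
theorem LYL_piA {p q : Fin 13} (hpq : p < q) (hq : q < 12) (B : Fam') :
    LYL (mapF (piA p q) B) = mapF (Equiv.swap (qA p q) 10) (Lay (moved (Equiv.swap p 11) B p)) := by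
  rw [LYL_mapF (piA_p p q hpq hq)]
  exact lay_moved_mul (fix2_swap (fix2_qA p q hpq hq) (by decide)) B p

/-- the lane of `q` in the frame of the pair -/
theorem LZL_piA {p q : Fin 13} (hpq : p < q) (hq : q < 12) (B : Fam') :
    LZL (mapF (piA p q) B) = mapF (tauA p q) (Lay (moved (Equiv.swap q 11) B q)) := by
  rw [LZL_mapF (piA_q p q hpq hq), tauA_mul p q hpq hq]
  exact lay_moved_mul (fix2_tauA hpq hq) B q

/-- the covers of a frame of stage A: centre link `D`, bits of `lm` = heavy points -/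
structure HA (D : Fam') (lm : ℕ) (B : Fam') : Prop where
  best : Best B
  root : link B 12 = D
  c6 : MM B 12 ≤ 6
  y6 : MM B 11 ≤ 6
  z6 : MM B 10 ≤ 6
  my : 1 ≤ mm B 12 11
  mz : 1 ≤ mm B 12 10
  low : ∀ t : Fin 13, t.val < 10 → lm.testBit t.val = true → 8 ≤ MM B t

/-- the covers of a pair of positions of a centre -/
structure CA (r fm : ℕ) (p q : Fin 13) (B : Fam') : Prop where
  best : Best B
  root : link B 12 = fam 12 4 r
  c6 : MM B 12 ≤ 6
  p6 : MM B p ≤ 6
  q6 : MM B q ≤ 6
  mp : 1 ≤ mm B 12 p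
  mq : 1 ≤ mm B 12 q
  low : ∀ t : Fin 13, t < q → t ≠ p → fm.testBit t.val = true → 8 ≤ MM B t

/-- moving the covers of a pair to its frame; `lm` may only contain heavy points -/
theorem CA.frame {r fm : ℕ} {p q : Fin 13} (hpq : p < q) (hq : q < 12) {B : Fam'}
    (h : CA r fm p q B) {lm : ℕ}
    (hlm : ∀ t : Fin 13, t.val < 10 → lm.testBit t.val = true →
      (piA p q).symm t < q ∧ (piA p q).symm t ≠ p ∧
        fm.testBit ((piA p q).symm t).val = true) :
    HA (mapF (piA p q) (fam 12 4 r)) lm (mapF (piA p q) B) := by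
  have e12 := piA_12 p q hpq hq
  have e11 := piA_p p q hpq hq
  have e10 := piA_q p q hpq hq
  have hB := h.best.odd
  have hp12 : (12 : Fin 13) ≠ p := fun h1 => by
    rw [← h1] at hpq
    exact absurd (hpq.trans hq) (lt_irrefl _)
  have hq12 : (12 : Fin 13) ≠ q := fun h1 => by
    rw [← h1] at hq
    exact absurd hq (lt_irrefl _)
  refine ⟨h.best.map _, ?_, ?_, ?_, ?_, ?_, ?_, ?_⟩
  · rw [← h.root]
    conv_lhs => rw [← e12]
    exact link_mapF _ _ _
  · conv_lhs => rw [← e12]
    rw [MM_mapF hB]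
    exact h.c6
  · rw [← e11, MM_mapF hB]
    exact h.p6
  · rw [← e10, MM_mapF hB]
    exact h.q6
  · have h1 := mm_mapF hB (piA p q) hp12
    rw [e12, e11] at h1
    rw [h1]
    exact h.mp
  · have h1 := mm_mapF hB (piA p q) hq12
    rw [e12, e10] at h1
    rw [h1]
    exact h.mq
  · intro t ht hl
    obtain ⟨h1, h2, h3⟩ := hlm t ht hl
    have h4 := h.low _ h1 h2 h3
    rw [← MM_mapF hB (piA p q), Equiv.apply_symm_apply] at h4
    exact h4

/-- **a centre is dead if all its pairs of positions are**; `fm` = mask of the neighbours -/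
theorem cenA_of_pairs {r fm : ℕ}
    (hfm : ∀ B : Fam', OddCover B → link B 12 = fam 12 4 r → ∀ t : Fin 13, t < 12 →
      (fm.testBit t.val = true ↔ 1 ≤ mm B 12 t))
    (h : ∀ p q : Fin 13, p < q → q < 12 → fm.testBit p.val = true → fm.testBit q.val = true →
      ∀ B, ¬ CA r fm p q B) : CenA r := by
  intro B p q hB hr hpq hq h1 h2 h3 h4 h5 h6
  have hf := hfm B hB.odd hr
  refine h p q hpq hq ((hf p (hpq.trans hq)).2 h4) ((hf q hq).2 h5) B
    ⟨hB, hr, h1, h2, h3, h4, h5, ?_⟩
  intro t ht htp hb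
  exact h6 t ht htp ((hf t (ht.trans hq)).1 hb)

/-- the mask of the neighbours from the degrees of the code -/
theorem nbr_iff_deg {B : Fam'} (hB : OddCover B) {r : ℕ} (hr : link B 12 = fam 12 4 r)
    {t : Fin 13} (ht : t < 12) : 1 ≤ mm B 12 t ↔ 21 ≤ cnt (fam 12 4 r) {t} := by
  have h := card_link_link hB (x := 12) (y := t) (fun h1 => by
    rw [← h1] at ht
    exact absurd ht (lt_irrefl _))
  rw [← hr, ← card_link, h]
  omega

end Pool.Agent.Helper52.TY
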