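import Mathlib
import Pool.Agent.Helper91.TY.GlueB
import Pool.Agent.Helper16.TY.Seg
import Pool.Agent.Helper52.TY.LayC

/-!
MP_8ee768_co, project TH-Y', stage A: soundness of helper38's centre function.

The callback builder `cbK` is a parameter with the law `CbLaw`; rows and records are checked by
helper91's `RowsOK` and `recsChk`.
-/

set_option autoImplicit false
set_option exponentiation.threshold 2000000

namespace Pool.Agent.Helper52.TY

open Finset
open Pool.Agent.Helper89.CV (OddCover ofMask)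
open Pool.Agent.Helper97.CV
open Pool.Agent.Helper79.CV
open Pool.Agent.Helper33.CV
open Pool.Agent.Helper82.TY (below sub_iff_below Best Lay)
open Pool.Agent.Helper63.SIMD (fld)
open Pool.Agent.Helper63.TY (Cb Acc Agree acc_loopL)
open Pool.Agent.Helper38.TY
open Pool.Agent.Helper91.TY (runC Good RowsOK recsChk recsChk_succ root_letters inL_cutL
  lyl_letters lzl_letters ents_pair testBit_maskF_succ ite0_and)

/-! ### the mask of the heavy points -/

theorem sub_two_pow_eq_xor {x b : ℕ} (h : x.testBit b = true) : x - 2 ^ b = x ^^^ 2 ^ b := by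
  have h1 : (x ^^^ 2 ^ b).testBit b = false := by
    rw [Nat.testBit_xor, h, Nat.testBit_two_pow_self]
    rfl
  have h2 := Pool.Agent.Helper91.TY.add_two_pow_eq_xor h1
  rw [Nat.xor_assoc, Nat.xor_self, Nat.xor_zero] at h2
  omega

theorem piA_symm_self : ∀ p q t : Fin 13, p < q → q < 12 → t.val < 10 → t < q → t ≠ p →
    (piA p q).symm t = t := by
  have h : ∀ p q t : Fin 13, p < q → q < 12 → t.val < 10 → t < q → t ≠ p →
      piA p q t = t := by decide
  intro p q t h1 h2 h3 h4 h5
  rw [Equiv.symm_apply_eq]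
  exact (h p q t h1 h2 h3 h4 h5).symm

theorem piA_symm_eleven : ∀ p : Fin 13, p.val < 10 → (piA p 11).symm p = 10 := by
  have h : ∀ p : Fin 13, p.val < 10 → piA p 11 10 = p := by decide
  intro p h1
  rw [Equiv.symm_apply_eq]
  exact (h p h1).symm

/-- the mask `hm m p q` contains only heavy points -/
theorem hm_law {m : ℕ} {p q : Fin 13} (hpq : p < q) (hq : q < 12)
    (hmp : m.testBit p.val = true) (t : Fin 13) (ht : t.val < 10)
    (hb : (hm m p.val q.val).testBit t.val = true) :
    (piA p q).symm t < q ∧ (piA p q).symm t ≠ p ∧ m.testBit ((piA p q).symm t).val = true := by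
  have hpq' : p.val < q.val := hpq
  set x := m &&& (2 ^ q.val - 1) with hx
  have hxp : x.testBit p.val = true := by
    rw [hx, Nat.testBit_and, hmp, Nat.testBit_two_pow_sub_one, decide_eq_true hpq']
    rfl
  set y := x - 2 ^ p.val with hy
  have hyx : y = x ^^^ 2 ^ p.val := sub_two_pow_eq_xor hxp
  have hyt : ∀ s : ℕ, y.testBit s = true → s < q.val ∧ s ≠ p.val ∧ m.testBit s = true := by
    intro s hs
    rw [hyx, Nat.testBit_xor, hx, Nat.testBit_and, Nat.testBit_two_pow_sub_one,
      Nat.testBit_two_pow] at hs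
    by_cases hsp : s = p.val
    · subst hsp
      rw [hmp, decide_eq_true hpq', decide_eq_true rfl] at hs
      exact absurd hs (by decide)
    · rw [decide_eq_false (show ¬ p.val = s from fun h => hsp h.symm), Bool.xor_false,
        Bool.and_eq_true, decide_eq_true_eq] at hs
      exact ⟨hs.2, hsp, hs.1⟩
  have hyp : y.testBit p.val = false := by
    rw [← Bool.not_eq_true]
    exact fun h => (hyt _ h).2.1 rfl
  have e : hm m p.val q.val = ite0 (Nat.beq q.val 11) y
      (ite0 (Nat.beq (y &&& 1024) 0) (y - 1024 + 2 ^ p.val) y) := rfl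
  have main : ∀ s : Fin 13, s.val < 10 → y.testBit s.val = true →
      (piA p q).symm s < q ∧ (piA p q).symm s ≠ p ∧
        m.testBit ((piA p q).symm s).val = true := by
    intro s hs hb
    obtain ⟨h1, h2, h3⟩ := hyt _ hb
    rw [piA_symm_self p q s hpq hq hs h1 (fun h => h2 (by rw [h]))]
    exact ⟨h1, fun h => h2 (by rw [h]), h3⟩
  rw [e] at hb
  cases h11 : Nat.beq q.val 11 with
  | false =>
    rw [h11, ite0_false] at hb
    exact main t ht hb
  | true =>
    rw [h11, ite0_true] at hb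
    have hq11 : q = 11 := Fin.ext (Nat.eq_of_beq_eq_true h11)
    cases h10 : Nat.beq (y &&& 1024) 0 with
    | true =>
      rw [h10, ite0_true] at hb
      exact main t ht hb
    | false =>
      rw [h10, ite0_false] at hb
      have hy10 : y.testBit 10 = true := by
        by_contra h1
        rw [Bool.not_eq_true] at h1
        have h2 : y &&& 1024 = 0 := by
          have e2 : (1024 : ℕ) = 2 ^ 10 := by norm_num
          rw [e2]
          refine Nat.eq_of_testBit_eq fun i => ?_
          rw [Nat.testBit_and, Nat.testBit_two_pow, Nat.zero_testBit]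
          by_cases hi : 10 = i
          · rw [← hi, h1, Bool.false_and]
          · rw [decide_eq_false hi, Bool.and_false]
        rw [h2] at h10
        exact Bool.noConfusion h10
      obtain ⟨-, hp10, hm10⟩ := hyt _ hy10
      have e4 : (1024 : ℕ) = 2 ^ 10 := by norm_num
      rw [e4, sub_two_pow_eq_xor hy10] at hb
      have hp2 : (y ^^^ 2 ^ 10).testBit p.val = false := by
        rw [Nat.testBit_xor, hyp, Nat.testBit_two_pow, decide_eq_false hp10]
        rfl
      rw [Pool.Agent.Helper91.TY.add_two_pow_eq_xor hp2, Nat.testBit_xor, Nat.testBit_xor,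
        Nat.testBit_two_pow, Nat.testBit_two_pow, decide_eq_false (show ¬ 10 = t.val by omega),
        Bool.xor_false] at hb
      by_cases htp : p.val = t.val
      · have htp' : t = p := Fin.ext htp.symm
        subst htp'
        subst hq11
        rw [piA_symm_eleven t ht]
        refine ⟨by decide, fun h => hp10 (by rw [← h]; rfl), hm10⟩
      · rw [decide_eq_false htp, Bool.xor_false] at hb
        exact main t ht hb

/-! ### one pair of groups -/

/-- the callback builder is sound in the frame with centre link `D`, heavy points `h`; the root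
word `R` codes the layers of `D` -/
def CbLaw (cbK : ℕ → ℕ → ((ℕ → ℕ → Cb) → Bool) → Bool) (D : Fam') (h : ℕ) : Prop :=
  ∀ R, R % 2 ^ 4096 = cub 12 (LayC D) → ∀ k, cbK R h k = true → ∃ cb, k cb = true ∧
    ∀ u v, Acc (Agree u v → LaneDeadL (HA D h) u v) (cb u v)

/-- the pair of groups is done -/
def PairGood (r m : ℕ) (a b : Ent) : Prop := ∀ p q : Fin 13, p < q → q < 12 → ∀ B,
  CA r m p q B → Good a B p → Good b B q → False

theorem acc_pairK {cbK : ℕ → ℕ → ((ℕ → ℕ → Cb) → Bool) → Bool} {r m : ℕ} {a b : Ent}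
    {p q : Fin 13} (ha : a.p = p.val) (hb : b.p = q.val) (hpq : p < q) (hq : q < 12)
    (hmp : m.testBit p.val = true)
    (hcb : CbLaw cbK (mapF (piA p q) (fam 12 4 r)) (hm m p.val q.val)) :
    Acc (PairGood r m a b)
      (pairK cbK (2 ^ 131072 - 1) (cub 12 (LayC (fam 12 4 r))) m a b) := by
  intro s c h
  unfold pairK at h
  simp only [frS_eq, runD_eq] at h
  rw [ha, hb] at h
  obtain ⟨cb, h1, h2⟩ := hcb _ (by
    rw [layC_mapF (piA_12 p q hpq hq)]
    exact root_letters hpq hq _) _ h
  obtain ⟨h3, h4⟩ := eng_acc h2 _ _ s c h1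
  refine ⟨?_, h4⟩
  intro p' q' _ _ B hB hya hzb
  obtain rfl : p = p' := Fin.ext (ha.symm.trans hya.pos)
  obtain rfl : q = q' := Fin.ext (hb.symm.trans hzb.pos)
  have hF := hB.frame hpq hq (hm_law hpq hq hmp)
  obtain ⟨Y, hY, i, hi, hYi⟩ := inL_cutL (lyl_letters hpq hq hya.le hya.inY)
  obtain ⟨Z, hZ, j, hj, hZj⟩ := inL_cutL (lzl_letters hpq hq hzb.le hzb.inX)
  refine h3 Y hY Z hZ i hi j hj ?_ _ hF hYi.symm hZj.symm
  rw [hYi, hZj]
  exact agree_lay _

/-! ### all pairs -/

theorem acc_pairs {f : Ent → Ent → Cb} {P : Ent → Ent → Prop} {l : List Ent}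
    (hl : l.Pairwise fun a b => a.p ≤ b.p)
    (h : ∀ a ∈ l, ∀ b ∈ l, a.p ≤ b.p → Acc (P a b) (f a b)) :
    Acc (l.Pairwise P) (pairsK f l) := by
  induction l with
  | nil =>
    intro s c hs
    exact ⟨List.Pairwise.nil, s, hs⟩
  | cons a l ih =>
    intro s c hs
    rw [pairsK_cons] at hs
    rw [List.pairwise_cons] at hl
    obtain ⟨h1, s', h2⟩ := acc_loopL (P := P a) (f := f a) (l := l)
      (fun b hb => h a List.mem_cons_self b (List.mem_cons_of_mem _ hb) (hl.1 b hb)) s _ hs
    obtain ⟨h3, h4⟩ := ih hl.2 (fun x hx y hy =>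
      h x (List.mem_cons_of_mem _ hx) y (List.mem_cons_of_mem _ hy)) s' c h2
    exact ⟨List.pairwise_cons.2 ⟨h1, h3⟩, h4⟩

/-! ### records -/

theorem p_of_mem_grpF {p len w : ℕ} : ∀ {g N : ℕ} {l : List ℕ} {e : Ent},
    e ∈ grpF p len w [] g N l → e.p = p
  | 0, _, _, _, h => absurd h List.not_mem_nil
  | g + 1, N, l, e, h => by
    rcases List.mem_cons.1 (show e ∈ entF p len w N l :: grpF p len w [] g (N - 512) (dropN 8 l)
      from h) with h1 | h1
    · rw [h1]
      rfl
    · exact p_of_mem_grpF h1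

theorem grpF_append (p len w : ℕ) (L : List Ent) (g N : ℕ) (l : List ℕ) :
    grpF p len w L g N l = grpF p len w [] g N l ++ L := by
  induction g generalizing N l with
  | zero => rfl
  | succ g ih =>
    show entF p len w N l :: grpF p len w L g (N - 512) (dropN 8 l) = _
    rw [ih]
    rfl

theorem sorted_ents {row : ℕ → List ℕ} {nl typ : ℕ → ℕ} {NT R n lo C : ℕ}
    (h : recsChk typ NT R n lo C = true) :
    (entsF row nl n C).Pairwise (fun a b => a.p ≤ b.p) ∧
      ∀ e ∈ entsF row nl n C, lo ≤ e.p ∧ e.p ≤ 11 ∧ (maskF n C).testBit e.p = true := by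
  induction n generalizing lo C with
  | zero => exact ⟨List.Pairwise.nil, fun e he => absurd he List.not_mem_nil⟩
  | succ n ih =>
    obtain ⟨h1, h2, -, -, -, h4⟩ := recsChk_succ h
    obtain ⟨h5, h6⟩ := ih h4
    have e : entsF row nl (n + 1) C = grpF (rP C) (rLen C) (rW C) []
        ((nl (rT C) + 511) / 512) (nl (rT C)) (row (rT C)) ++ entsF row nl n (C >>> 112) := by
      show recF row nl C (entsF row nl n (C >>> 112)) = _
      unfold recF
      rw [grpF_append]
    rw [e]
    refine ⟨List.pairwise_append.2 ⟨?_, h5, ?_⟩, ?_⟩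
    · refine List.Pairwise.imp_of_mem (R := fun _ _ => True) ?_ (List.pairwise_of_forall
        (fun _ _ => trivial))
      intro a b ha hb _
      rw [p_of_mem_grpF ha, p_of_mem_grpF hb]
    · intro a ha b hb
      rw [p_of_mem_grpF ha]
      have := (h6 b hb).1
      omega
    · intro e he
      rcases List.mem_append.1 he with he | he
      · rw [p_of_mem_grpF he]
        exact ⟨h1, h2, testBit_maskF_succ.2 (Or.inl rfl)⟩
      · obtain ⟨h7, h8, h9⟩ := h6 e he
        exact ⟨by omega, h8, testBit_maskF_succ.2 (Or.inr h9)⟩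

/-! ### the centre -/

theorem acc_cenF {row : ℕ → List ℕ} {nl typ : ℕ → ℕ} {NT : ℕ}
    (hrow : RowsOK typ nl row NT 6 (fun _ => True))
    {cbK : ℕ → ℕ → ((ℕ → ℕ → Cb) → Bool) → Bool} {v r C : ℕ}
    (hfm : ∀ B : Fam', OddCover B → link B 12 = fam 12 4 r → ∀ t : Fin 13, t < 12 →
      ((4095 ^^^ (v >>> 495)).testBit t.val = true ↔ 1 ≤ mm B 12 t))
    (hrecs : recsChk typ NT (cub 12 (fam 12 4 r)) (Nat.land C 15) 0 (C >>> 4) = true)
    (hcb : ∀ p q : Fin 13, p < q → q < 12 →
      CbLaw cbK (mapF (piA p q) (fam 12 4 r)) (hm (4095 ^^^ (v >>> 495)) p.val q.val)) :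
    Acc (CenA r) (cenF row nl cbK v (cub 12 (LayC (fam 12 4 r))) C) := by
  intro s c h
  unfold cenF at h
  obtain ⟨h1, h2⟩ := ite0_and h
  have hm1 : maskF (Nat.land C 15) (C >>> 4) = 4095 ^^^ (v >>> 495) := Nat.eq_of_beq_eq_true h1
  rw [hm1] at h2
  obtain ⟨hs, hb⟩ := sorted_ents (row := row) (nl := nl) hrecs
  rw [hm1] at hb
  obtain ⟨h3, h4⟩ := acc_pairs (P := fun a b => a.p ≠ b.p → PairGood r (4095 ^^^ (v >>> 495)) a b)
    (f := prK cbK (2 ^ 131072 - 1) (cub 12 (LayC (fam 12 4 r))) (4095 ^^^ (v >>> 495))) hs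
    (fun a ha b hb' hab => by
      intro s c h5
      unfold prK at h5
      cases h6 : Nat.beq a.p b.p with
      | true =>
        rw [h6, ite0_true] at h5
        exact ⟨fun h7 => absurd (Nat.eq_of_beq_eq_true h6) h7, s, h5⟩
      | false =>
        rw [h6, ite0_false] at h5
        have h7 : a.p ≠ b.p := fun h8 => by
          rw [h8] at h6
          have := Nat.beq_refl b.p
          rw [this] at h6
          exact Bool.noConfusion h6
        obtain ⟨-, ha11, hab'⟩ := hb a ha
        obtain ⟨-, hb11, -⟩ := hb b hb'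
        have hpq : (⟨a.p, by omega⟩ : Fin 13) < ⟨b.p, by omega⟩ := Fin.mk_lt_mk.2 (by omega)
        have hq12 : (⟨b.p, by omega⟩ : Fin 13) < 12 := by
          show b.p < 12
          omega
        obtain ⟨h8, h9⟩ := acc_pairK (a := a) (b := b) (p := ⟨a.p, by omega⟩)
          (q := ⟨b.p, by omega⟩) rfl rfl hpq hq12 hab' (hcb _ _ hpq hq12) s c h5
        exact ⟨fun _ => h8, h9⟩) s c h2
  refine ⟨?_, h4⟩
  refine cenA_of_pairs hfm fun p q hpq hq hp1 hq1 B hB => ?_
  rw [← hm1] at hp1 hq1
  have hBo := hB.best.odd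
  obtain ⟨a, b, ha, hb', hPP⟩ := ents_pair (P := fun _ => True) (fun _ _ _ => trivial) hrow hpq
    (B := B) (r := r) ⟨hBo, hB.root, hB.p6, trivial⟩ ⟨hBo, hB.root, hB.q6, trivial⟩ hrecs hp1
    hq1 h3
  refine hPP ?_ p q hpq hq B hB ha hb'
  rw [ha.pos, hb'.pos]
  exact ne_of_lt hpq

/-- **soundness of the centre function** -/
theorem acc_cenK {row : ℕ → List ℕ} {nl typ : ℕ → ℕ} {NT : ℕ}
    (hrow : RowsOK typ nl row NT 6 (fun _ => True))
    {cbK : ℕ → ℕ → ((ℕ → ℕ → Cb) → Bool) → Bool} {v r C : ℕ}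
    (hfm : ∀ B : Fam', OddCover B → link B 12 = fam 12 4 r → ∀ t : Fin 13, t < 12 →
      ((4095 ^^^ (v >>> 495)).testBit t.val = true ↔ 1 ≤ mm B 12 t))
    (hrecs : recsChk typ NT (cub 12 (fam 12 4 r)) (Nat.land C 15) 0 (C >>> 4) = true)
    (hcb : ∀ p q : Fin 13, p < q → q < 12 →
      CbLaw cbK (mapF (piA p q) (fam 12 4 r)) (hm (4095 ^^^ (v >>> 495)) p.val q.val)) :
    Acc (CenA r) (cenK row nl cbK v (cub 12 (LayC (fam 12 4 r))) C) := by
  intro s c h
  rw [cenK_eq] at h
  exact acc_cenF hrow hfm hrecs hcb s c h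

/-- the zero set of a good value -/
theorem nbr_of_good {v : ℕ} (hv : Pool.Agent.Helper16.TY.Good 6 v) (B : Fam') (hB : OddCover B)
    (hr : link B 12 = fam 12 4 (v % 2 ^ 495)) (t : Fin 13) (ht : t < 12) :
    (4095 ^^^ (v >>> 495)).testBit t.val = true ↔ 1 ≤ mm B 12 t := by
  obtain ⟨D, hD, -, hv⟩ := hv
  have ht' : t.val < 12 := ht
  rw [hv, Pool.Agent.Helper16.TY.code_mod] at hr
  have hfe : fam 12 4 (enc 12 4 D) = D := by
    refine fam_enc (by norm_num) fun s hs => ?_
    exact sub_iff_below.2 (hD.1 s hs)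
  rw [hfe] at hr
  have h1 := Pool.Agent.Helper16.TY.testBit_code_zs D ht'
  have h2 : (4095 : ℕ).testBit t.val = true := by
    rw [show (4095 : ℕ) = 2 ^ 12 - 1 by norm_num, Nat.testBit_two_pow_sub_one,
      decide_eq_true ht']
  have h3 : (link D ⟨t.val, by omega⟩).card = 19 + 2 * mm B 12 t := by
    rw [← hr]
    exact card_link_link hB (fun h4 => by
      have h4' := congrArg Fin.val h4
      have e : (12 : Fin 13).val = 12 := rfl
      rw [e] at h4'
      exact absurd ht' (by rw [h4']; exact lt_irrefl _))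
  rw [hv, Nat.testBit_xor, h2, Nat.testBit_shiftRight, h1, h3]
  by_cases h5 : mm B 12 t = 0
  · rw [h5]
    simp
  · have h6 : ¬ 19 + 2 * mm B 12 t = 19 := by omega
    rw [decide_eq_false h6]
    simp
    omega

end Pool.Agent.Helper52.TY
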