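import Mathlib
import Pool.Agent.Helper52.TY.CentreA

/-!
MP_8ee768_co, project TH-Y', stage A: the root word of a centre, computed from its table value.
-/

set_option autoImplicit false
set_option exponentiation.threshold 2000000

namespace Pool.Agent.Helper52.TY

open Finset
open Pool.Agent.Helper89.CV (OddCover ofMask)
open Pool.Agent.Helper97.CV
open Pool.Agent.Helper79.CV
open Pool.Agent.Helper33.CV
open Pool.Agent.Helper82.TY (below sub_iff_below Best Lay)
open Pool.Agent.Helper63.SIMD (fld pk pk_succ pk_add rep)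
open Pool.Agent.Helper91.TY (testBit_fld)
open Pool.Agent.Helper69.TY (pcb land_rep)

/-! ### number of bits -/

/-- the literal `rep 8 62` -/
def r862 : ℕ :=
  0x0101010101010101010101010101010101010101010101010101010101010101010101010101010101010101010101010101010101010101010101010101

theorem r862_eq : r862 = rep 8 62 := by decide +kernel

/-- the number of bits of a number below `2 ^ 496` -/
def popK (r : ℕ) : ℕ :=
  Nat.mod (Nat.add (Nat.add
    (Nat.add (Nat.land (Nat.shiftRight r 0) r862) (Nat.land (Nat.shiftRight r 1) r862))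
    (Nat.add (Nat.land (Nat.shiftRight r 2) r862) (Nat.land (Nat.shiftRight r 3) r862)))
    (Nat.add
    (Nat.add (Nat.land (Nat.shiftRight r 4) r862) (Nat.land (Nat.shiftRight r 5) r862))
    (Nat.add (Nat.land (Nat.shiftRight r 6) r862) (Nat.land (Nat.shiftRight r 7) r862)))) 255

theorem pk_modEq (N : ℕ) (w : ℕ → ℕ) : pk 8 N w ≡ ∑ r ∈ range N, w r [MOD 255] := by
  unfold pk
  induction N with
  | zero => exact Nat.ModEq.refl _
  | succ N ih =>
    rw [sum_range_succ, sum_range_succ]
    refine ih.add ?_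
    have h1 : 2 ^ (8 * N) ≡ 1 [MOD 255] := by
      rw [pow_mul]
      exact (Nat.ModEq.pow N (show (2 : ℕ) ^ 8 ≡ 1 [MOD 255] by decide)).trans (by rw [one_pow])
    simpa using h1.mul_left (w N)

theorem pcb_succ (e n : ℕ) : pcb e (n + 1) = pcb e n + (e.testBit n).toNat := rfl

theorem pcb_eight (e n : ℕ) : pcb e (8 * n) = ∑ i ∈ range n,
    ((e.testBit (8 * i)).toNat + (e.testBit (8 * i + 1)).toNat +
      ((e.testBit (8 * i + 2)).toNat + (e.testBit (8 * i + 3)).toNat) +
      ((e.testBit (8 * i + 4)).toNat + (e.testBit (8 * i + 5)).toNat +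
      ((e.testBit (8 * i + 6)).toNat + (e.testBit (8 * i + 7)).toNat))) := by
  induction n with
  | zero => rfl
  | succ n ih =>
    rw [sum_range_succ, ← ih, show 8 * (n + 1) = 8 * n + 7 + 1 by ring, pcb_succ,
      show 8 * n + 7 = 8 * n + 6 + 1 by ring, pcb_succ, show 8 * n + 6 = 8 * n + 5 + 1 by ring,
      pcb_succ, show 8 * n + 5 = 8 * n + 4 + 1 by ring, pcb_succ,
      show 8 * n + 4 = 8 * n + 3 + 1 by ring, pcb_succ, show 8 * n + 3 = 8 * n + 2 + 1 by ring,
      pcb_succ, show 8 * n + 2 = 8 * n + 1 + 1 by ring, pcb_succ, pcb_succ]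
    ring

theorem fld_bit {r i q : ℕ} (hq : q < 8) : ((fld 8 r i).testBit q).toNat =
    (r.testBit (8 * i + q)).toNat := by
  rw [testBit_fld, decide_eq_true hq, Bool.true_and]

/-- the number of bits -/
theorem popK_eq {r : ℕ} (h : pcb r 496 < 255) : popK r = pcb r 496 := by
  have e : popK r = (pk 8 62 (fun i => (r.testBit (8 * i)).toNat + (r.testBit (8 * i + 1)).toNat +
      ((r.testBit (8 * i + 2)).toNat + (r.testBit (8 * i + 3)).toNat) +
      ((r.testBit (8 * i + 4)).toNat + (r.testBit (8 * i + 5)).toNat +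
      ((r.testBit (8 * i + 6)).toNat + (r.testBit (8 * i + 7)).toNat)))) % 255 := by
    rw [← pk_add, ← pk_add, ← pk_add, ← pk_add, ← pk_add, ← pk_add, ← pk_add]
    have h0 : ∀ q < 8, (r >>> q) &&& r862 = pk 8 62 (fun i => (r.testBit (8 * i + q)).toNat) := by
      intro q hq
      rw [r862_eq, land_rep (by norm_num) hq]
      congr 1
      funext i
      exact fld_bit hq
    have e0 := h0 0 (by norm_num)
    simp only [Nat.add_zero] at e0
    show (((r >>> 0 &&& r862) + (r >>> 1 &&& r862) + ((r >>> 2 &&& r862) + (r >>> 3 &&& r862))) +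
      ((r >>> 4 &&& r862) + (r >>> 5 &&& r862) + ((r >>> 6 &&& r862) + (r >>> 7 &&& r862)))) % 255
      = _
    rw [e0, h0 1 (by norm_num), h0 2 (by norm_num), h0 3 (by norm_num), h0 4 (by norm_num),
      h0 5 (by norm_num), h0 6 (by norm_num), h0 7 (by norm_num)]
  have h1 := pk_modEq 62 (fun i => (r.testBit (8 * i)).toNat + (r.testBit (8 * i + 1)).toNat +
      ((r.testBit (8 * i + 2)).toNat + (r.testBit (8 * i + 3)).toNat) +
      ((r.testBit (8 * i + 4)).toNat + (r.testBit (8 * i + 5)).toNat +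
      ((r.testBit (8 * i + 6)).toNat + (r.testBit (8 * i + 7)).toNat)))
  rw [← pcb_eight r 62, show 8 * 62 = 496 by norm_num] at h1
  rw [e]
  exact (show _ % 255 = pcb r 496 % 255 from h1).trans (Nat.mod_eq_of_lt h)

/-! ### points -/

/-- the bits of `z` at the masks of the points -/
def pts (n z : ℕ) : ℕ :=
  Nat.rec 0 (fun t s => Nat.lor s (Nat.shiftLeft (Nat.land (Nat.shiftRight z t) 1)
    (Nat.pow 2 t))) n

theorem pts_zero (z : ℕ) : pts 0 z = 0 := rfl
theorem pts_succ (n z : ℕ) : pts (n + 1) z = pts n z ||| (((z >>> n) &&& 1) <<< 2 ^ n) := rfl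

theorem testBit_pts {n z m : ℕ} : (pts n z).testBit m = true ↔
    ∃ t, t < n ∧ m = 2 ^ t ∧ z.testBit t = true := by
  induction n with
  | zero =>
    rw [pts_zero, Nat.zero_testBit]
    simp
  | succ n ih =>
    have h1 : (((z >>> n) &&& 1) <<< 2 ^ n).testBit m = true ↔ m = 2 ^ n ∧ z.testBit n = true := by
      have h2 : (z >>> n) &&& 1 = (z.testBit n).toNat := by
        rw [Nat.and_one_is_mod, Nat.shiftRight_eq_div_pow, Nat.toNat_testBit]
      rw [h2, Nat.testBit_shiftLeft]
      cases z.testBit n with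
      | false => simp
      | true =>
        rw [Bool.toNat_true, Bool.and_eq_true, decide_eq_true_eq,
          Nat.testBit_one_eq_true_iff_self_eq_zero]
        constructor
        · rintro ⟨h3, h4⟩
          exact ⟨by omega, rfl⟩
        · rintro ⟨h3, -⟩
          exact ⟨by omega, by omega⟩
    rw [pts_succ, Nat.testBit_or, Bool.or_eq_true, ih, h1]
    constructor
    · rintro (⟨t, h2, h3, h4⟩ | ⟨h2, h3⟩)
      · exact ⟨t, by omega, h3, h4⟩
      · exact ⟨n, by omega, h2, h3⟩
    · rintro ⟨t, h2, h3, h4⟩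
      by_cases ht : t = n
      · subst ht
        exact Or.inr ⟨h3, h4⟩
      · exact Or.inl ⟨t, by omega, h3, h4⟩

/-! ### the root word -/

/-- the digits of the number `p + 7` at the masks `0` and `4095` -/
def digR (p : ℕ) : ℕ :=
  Nat.lor (Nat.land (Nat.add p 7) 1)
    (Nat.shiftLeft (Nat.land (Nat.shiftRight (Nat.add p 7) 1) 1) 4095)

/-- the literal `2 ^ 495` -/
def c495 : ℕ :=
  0x8000000000000000000000000000000000000000000000000000000000000000000000000000000000000000000000000000000000000000000000000000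

theorem c495_eq : c495 = 2 ^ 495 := by decide +kernel

/-- the root word of the table value `v` -/
noncomputable def rootR (v : ℕ) : ℕ :=
  Nat.lor (cub4 (Nat.mod v c495))
    (Nat.lor (pts 12 (Nat.xor 4095 (Nat.shiftRight v 495)))
      (digR (popK (Nat.mod v c495))))

theorem testBit_digR {p m : ℕ} : (digR p).testBit m = true ↔
    (m = 0 ∧ (p + 7) % 2 = 1) ∨ (m = 4095 ∧ (p + 7) / 2 % 2 = 1) := by
  show (((p + 7) &&& 1) ||| ((((p + 7) >>> 1) &&& 1) <<< 4095)).testBit m = true ↔ _
  rw [Nat.testBit_or, Bool.or_eq_true, Nat.and_one_is_mod, Nat.and_one_is_mod,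
    Nat.shiftRight_one, Nat.testBit_shiftLeft]
  have h1 : ∀ a k : ℕ, (a % 2).testBit k = true ↔ k = 0 ∧ a % 2 = 1 := by
    intro a k
    rcases Nat.mod_two_eq_zero_or_one a with h | h
    · rw [h]
      simp
    · rw [h, Nat.testBit_one_eq_true_iff_self_eq_zero]
      simp
  rw [h1, Bool.and_eq_true, h1, decide_eq_true_eq]
  constructor
  · rintro (h | ⟨h2, h3, h4⟩)
    · exact Or.inl h
    · exact Or.inr ⟨by omega, h4⟩
  · rintro (h | ⟨h2, h3⟩)
    · exact Or.inl h
    · exact Or.inr ⟨by omega, by omega, h3⟩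

theorem ofMask_pow : ∀ t : Fin 13, ofMask (2 ^ t.val) = {t} := by decide

theorem card_full : (ofMask 4095).card = 12 := by decide

theorem mem_full : ∀ a : Fin 13, a.val < 12 → a ∈ ofMask 4095 := by decide

theorem card_one_mask {m : ℕ} (hm : m < 4096) : (ofMask m).card = 1 ↔
    ∃ t : Fin 13, t < 12 ∧ m = 2 ^ t.val := by
  constructor
  · intro h
    obtain ⟨t, ht⟩ := card_eq_one.1 h
    refine ⟨t, ?_, ?_⟩
    · have h1 := subset_below_ofMask (n := 12) (by omega : m < 2 ^ 12)
      have h2 := mem_below.1 (h1 (by rw [ht]; exact mem_singleton_self t))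
      exact h2
    · rw [← ofMask_pow t] at ht
      have h3 := congrArg mk ht
      have h4 : 2 ^ t.val < 8192 := by
        have : 2 ^ t.val ≤ 2 ^ 12 := Nat.pow_le_pow_right (by norm_num) (by omega)
        omega
      rwa [mk_ofMask (by omega), mk_ofMask h4] at h3
  · rintro ⟨t, ht, rfl⟩
    rw [ofMask_pow, card_singleton]

/-- **the root word** of the class of an actual link -/
theorem rootR_eq {v : ℕ} (hv : Pool.Agent.Helper16.TY.Good 6 v) {B : Fam'} (hB : OddCover B)
    (hr : link B 12 = fam 12 4 (v % 2 ^ 495)) :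
    rootR v = cub 12 (LayC (fam 12 4 (v % 2 ^ 495))) := by
  have hz := nbr_of_good hv B hB hr
  have hcard : (fam 12 4 (v % 2 ^ 495)).card ≤ 60 := by
    obtain ⟨D, hD, hc, hv⟩ := hv
    rw [hv, Pool.Agent.Helper16.TY.code_mod]
    have hfe : fam 12 4 (enc 12 4 D) = D := by
      refine fam_enc (by norm_num) fun s hs => ?_
      exact sub_iff_below.2 (hD.1 s hs)
    rw [hfe]
    omega
  set r := v % 2 ^ 495 with hrdef
  have hlt : r < 2 ^ 495 := Nat.mod_lt _ (Nat.two_pow_pos _)
  have hpop : popK r = (fam 12 4 r).card := by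
    have h1 := Pool.Agent.Helper16.TY.card_eq_pcb hlt
    have h2 : pcb r 496 = pcb r 495 := by
      rw [pcb_succ, Nat.testBit_eq_false_of_lt hlt, Bool.toNat_false, Nat.add_zero]
    have h3 : pcb r 496 < 255 := by
      rw [h2, ← h1]
      exact lt_of_le_of_lt hcard (by norm_num)
    rw [popK_eq h3, h2, h1]
  refine Nat.eq_of_testBit_eq fun m => ?_
  have e : rootR v = cub 12 (fam 12 4 r) ||| (pts 12 (4095 ^^^ (v >>> 495)) |||
      digR (popK r)) := by
    have e1 : v % c495 = r := by rw [c495_eq]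
    rw [← cub4_eq hlt, ← e1]
    rfl
  rw [e, hpop, Bool.eq_iff_iff, Nat.testBit_or, Nat.testBit_or, Bool.or_eq_true, Bool.or_eq_true,
    testBit_pts, testBit_digR]
  have hhi : ∀ F : Fam', 4096 ≤ m → (cub 12 F).testBit m = false := fun F hm =>
    Nat.testBit_eq_false_of_lt (lt_of_lt_of_le (cub_lt 12 F) (Nat.pow_le_pow_right (by norm_num) hm))
  by_cases hm : m < 4096
  · rw [testBit_cub _ hm, testBit_cub _ hm, decide_eq_true_eq, decide_eq_true_eq, mem_layC,
      mk_ofMask (by omega)]
    have h4 : ofMask m ∈ fam 12 4 r → (ofMask m).card = 4 := fun h =>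
      (sub_iff_below.1 (sub_of_mem_fam (by norm_num) h)).2
    constructor
    · rintro (h | ⟨t, h1, h2, h3⟩ | ⟨h1, h2⟩ | ⟨h1, h2⟩)
      · exact ⟨hm, Or.inl ⟨h4 h, h⟩⟩
      · have h5 : ofMask m = {(⟨t, by omega⟩ : Fin 13)} := by
          rw [h2]
          exact ofMask_pow ⟨t, by omega⟩
        have h6 : (⟨t, by omega⟩ : Fin 13) < 12 := h1
        refine ⟨hm, Or.inr (Or.inl ?_)⟩
        rw [h5]
        exact ⟨card_singleton _, (nbr_iff_deg hB hr h6).1 ((hz _ h6).1 h3)⟩
      · subst h1
        exact ⟨hm, Or.inr (Or.inr (Or.inl ⟨by decide, h2⟩))⟩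
      · subst h1
        exact ⟨hm, Or.inr (Or.inr (Or.inr ⟨card_full, h2⟩))⟩
    · rintro ⟨-, ⟨h1, h2⟩ | ⟨h1, h2⟩ | ⟨h1, h2⟩ | ⟨h1, h2⟩⟩
      · exact Or.inl h2
      · obtain ⟨t, h5, h6⟩ := (card_one_mask hm).1 h1
        rw [h6, ofMask_pow] at h2
        exact Or.inr (Or.inl ⟨t.val, h5, h6, (hz t h5).2 ((nbr_iff_deg hB hr h5).2 h2)⟩)
      · refine Or.inr (Or.inr (Or.inl ⟨?_, h2⟩))
        have h5 := congrArg mk (card_eq_zero.1 h1)
        rw [mk_ofMask (by omega)] at h5
        rw [h5]
        decide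
      · refine Or.inr (Or.inr (Or.inr ⟨?_, h2⟩))
        have h5 : ofMask m = ofMask 4095 := eq_of_subset_of_card_le (fun a ha => by
          have h6 := mem_below.1 (subset_below_ofMask (n := 12) (by omega : m < 2 ^ 12) ha)
          exact mem_full a h6) (by rw [card_full, h1])
        have h6 := congrArg mk h5
        rwa [mk_ofMask (by omega), mk_ofMask (by norm_num)] at h6
  · rw [hhi _ (by omega), hhi _ (by omega)]
    constructor
    · rintro (h | ⟨t, h1, h2, h3⟩ | ⟨h1, h2⟩ | ⟨h1, h2⟩)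
      · exact absurd h (by decide)
      · have : 2 ^ t ≤ 2 ^ 11 := Nat.pow_le_pow_right (by norm_num) (by omega)
        omega
      · omega
      · omega
    · intro h
      exact absurd h (by decide)

end Pool.Agent.Helper52.TY
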