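import Pool.Agent.Helper52.TY.Expand
import Pool.Agent.Helper91.TY.CRun

/-!
MP_8ee768_co, project TH-Y': where the expansion program sends single bits.
-/

set_option autoImplicit false

namespace Pool.Agent.Helper52.TY

open Pool.Agent.Helper91.TY (frc frc_eq)

/-- the new place of a bit -/
def pStep (M s b : ℕ) : ℕ := Nat.add b (Nat.mul s (Nat.land (Nat.shiftRight M b) 1))

theorem eStep_two_pow (M s b : ℕ) : eStep M s (2 ^ b) = 2 ^ pStep M s b := by
  have e : eStep M s (2 ^ b) = ((2 ^ b &&& M) <<< s) ||| (2 ^ b ^^^ (2 ^ b &&& M)) := rfl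
  have e2 : pStep M s b = b + s * ((M >>> b) &&& 1) := rfl
  rw [e, e2]
  have h1 : 2 ^ b &&& M = if M.testBit b = true then 2 ^ b else 0 := by
    refine Nat.eq_of_testBit_eq fun i => ?_
    rw [Nat.testBit_and, Nat.testBit_two_pow]
    by_cases h : b = i
    · subst h
      split_ifs with h2
      · simp [h2]
      · simp only [Bool.not_eq_true] at h2
        simp [h2]
    · split_ifs
      · rw [Nat.testBit_two_pow_of_ne h]
        simp [h]
      · simp [h]
  have h2 : (M >>> b) &&& 1 = if M.testBit b = true then 1 else 0 := by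
    rw [Nat.and_one_is_mod, Nat.shiftRight_eq_div_pow, Nat.testBit_eq_decide_div_mod_eq]
    have h3 := Nat.mod_two_eq_zero_or_one (M / 2 ^ b)
    split_ifs with h4
    · exact of_decide_eq_true h4
    · have h5 := of_decide_eq_false (Bool.eq_false_iff.2 h4)
      omega
  rw [h1, h2]
  split_ifs with h3
  · rw [mul_one, Nat.xor_self, Nat.or_zero, Nat.shiftLeft_eq, ← pow_add]
  · rw [mul_zero, add_zero, Nat.zero_shiftLeft, Nat.zero_or, Nat.xor_zero]

/-- the new place of a bit, all steps -/
noncomputable def pProg (b : ℕ) : ℕ :=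
  frc (pStep eM16 1) (frc (pStep eM15 2) (frc (pStep eM14 4) (frc (pStep eM13 8)
    (frc (pStep eM12 16) (frc (pStep eM11 32) (frc (pStep eM10 64) (frc (pStep eM9 128)
    (frc (pStep eM8 256) (frc (pStep eM7 512) (frc (pStep eM6 1024) (frc (pStep eM5 1536)
    (frc (pStep eM4 3072) (frc (pStep eM3 6144) (frc (pStep eM2 12288) (frc (pStep eM1 24576)
    (frc (pStep eM0 49152) b))))))))))))))))

theorem expandC_two_pow (b : ℕ) : expandC (2 ^ b) = 2 ^ pProg b := by
  unfold expandC pProg
  simp only [frc_eq, eStep_two_pow]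

/-- the check of the places of one lane against a list of masks -/
noncomputable def lstOK (i : ℕ) (l : List ℕ) : ℕ → Bool :=
  @List.rec ℕ (fun _ => ℕ → Bool) (fun _ => true)
    (fun m _ ih r => (Nat.beq (pProg (Nat.add (Nat.mul 512 i) r)) (Nat.add (Nat.mul 2048 i) m)).and
      (ih (Nat.succ r))) l

theorem lstOK_cons (i m : ℕ) (l : List ℕ) (r : ℕ) : lstOK i (m :: l) r =
    ((Nat.beq (pProg (512 * i + r)) (2048 * i + m)).and (lstOK i l (r + 1))) := rfl

theorem lstOK_spec {i : ℕ} : ∀ {l : List ℕ} {r : ℕ}, lstOK i l r = true →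
    ∀ (k : ℕ) (hk : k < l.length), pProg (512 * i + (r + k)) = 2048 * i + l[k]
  | [], _, _, k, hk => absurd hk (Nat.not_lt_zero k)
  | m :: l, r, h, k, hk => by
    rw [lstOK_cons] at h
    have h' : Nat.beq (pProg (512 * i + r)) (2048 * i + m) = true ∧ lstOK i l (r + 1) = true := by
      generalize Nat.beq (pProg (512 * i + r)) (2048 * i + m) = a at h ⊢
      generalize lstOK i l (r + 1) = b at h ⊢
      cases a <;> cases b <;> simp_all
    cases k with
    | zero => exact Nat.eq_of_beq_eq_true h'.1
    | succ k =>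
      have h2 := lstOK_spec h'.2 k (Nat.lt_of_succ_lt_succ hk)
      rw [show r + (k + 1) = r + 1 + k by omega, h2]
      rfl

/-- the check of one lane -/
noncomputable def laneOK (i : ℕ) : Bool := lstOK i dms 0

/-- lanes `lo, .., lo + n - 1` -/
noncomputable def lanesOK (lo n : ℕ) : Bool :=
  @Nat.rec (fun _ => Bool) true (fun k ih => ih.and (laneOK (Nat.add lo k))) n

theorem lanesOK_spec {lo : ℕ} : ∀ {n : ℕ}, lanesOK lo n = true → ∀ k < n, laneOK (lo + k) = true
  | 0, _, k, hk => absurd hk (Nat.not_lt_zero k)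
  | n + 1, h, k, hk => by
    have h0 : (lanesOK lo n).and (laneOK (lo + n)) = true := h
    have h' : lanesOK lo n = true ∧ laneOK (lo + n) = true := by
      generalize lanesOK lo n = a at h0 ⊢
      generalize laneOK (lo + n) = b at h0 ⊢
      cases a <;> cases b <;> simp_all
    rcases Nat.lt_succ_iff_lt_or_eq.1 hk with h2 | h2
    · exact lanesOK_spec h'.1 k h2
    · rw [h2]
      exact h'.2

theorem lanesOK_0 : lanesOK 0 8 = true := by decide +kernel
theorem lanesOK_8 : lanesOK 8 8 = true := by decide +kernel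
theorem lanesOK_16 : lanesOK 16 8 = true := by decide +kernel
theorem lanesOK_24 : lanesOK 24 8 = true := by decide +kernel
theorem lanesOK_32 : lanesOK 32 8 = true := by decide +kernel
theorem lanesOK_40 : lanesOK 40 8 = true := by decide +kernel
theorem lanesOK_48 : lanesOK 48 8 = true := by decide +kernel
theorem lanesOK_56 : lanesOK 56 8 = true := by decide +kernel

theorem laneOK_all {i : ℕ} (hi : i < 64) : laneOK i = true := by
  have e : i = 8 * (i / 8) + i % 8 := (Nat.div_add_mod i 8).symm
  have h8 : i % 8 < 8 := Nat.mod_lt _ (by norm_num)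
  rw [e]
  have h : i / 8 < 8 := by omega
  interval_cases i / 8
  · exact lanesOK_spec lanesOK_0 _ h8
  · exact lanesOK_spec lanesOK_8 _ h8
  · exact lanesOK_spec lanesOK_16 _ h8
  · exact lanesOK_spec lanesOK_24 _ h8
  · exact lanesOK_spec lanesOK_32 _ h8
  · exact lanesOK_spec lanesOK_40 _ h8
  · exact lanesOK_spec lanesOK_48 _ h8
  · exact lanesOK_spec lanesOK_56 _ h8

theorem length_dms : dms.length = 508 := by decide +kernel

theorem dms_lt : ∀ m ∈ dms, m < 2048 := by decide +kernel

theorem pProg_lane {i : ℕ} (hi : i < 64) {r : ℕ} (hr : r < dms.length) :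
    pProg (512 * i + r) = 2048 * i + dms[r] := by
  have h := lstOK_spec (laneOK_all hi) r hr
  rw [Nat.zero_add] at h
  exact h

end Pool.Agent.Helper52.TY
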