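import Pool.Agent.Helper52.TY.ExpandP
import Pool.Agent.Helper33.CV.Cube

/-!
MP_8ee768_co, project TH-Y': correctness of the expansion program on a chunk of 64 dense lanes.
-/

set_option autoImplicit false

namespace Pool.Agent.Helper52.TY

open Finset
open Pool.Agent.Helper89.CV (ofMask)
open Pool.Agent.Helper79.CV
open Pool.Agent.Helper63.SIMD Pool.Agent.Helper91.TY Pool.Agent.Helper33.CV

theorem split_eq {a i m d : ℕ} (h : 2048 * a + d = 2048 * i + m) (hd : d < 2048)
    (hm : m < 2048) : a = i ∧ d = m := by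
  constructor <;> omega

/-- THE EXPANSION, bit by bit: input bits sit in the first 508 places of the 64 lanes -/
theorem testBit_expandC {X : ℕ} (hX : X < 2 ^ 32768)
    (hpad : ∀ i < 64, ∀ r, 508 ≤ r → r < 512 → X.testBit (512 * i + r) = false) {i m : ℕ}
    (hm : m < 2048) : (expandC X).testBit (2048 * i + m) = true ↔
      i < 64 ∧ ∃ r, ∃ (hr : r < dms.length), dms[r] = m ∧ X.testBit (512 * i + r) = true := by
  rw [lin_expandC.testBit (2048 * i + m) 32768 X hX]
  constructor
  · rintro ⟨b, hb, h1, h2⟩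
    have hi' : b / 512 < 64 := by omega
    have hr' : b % 512 < 508 := by
      by_contra h3
      have h4 := hpad (b / 512) hi' (b % 512) (not_lt.1 h3) (Nat.mod_lt _ (by norm_num))
      rw [Nat.div_add_mod, h1] at h4
      exact absurd h4 (by decide)
    have hr : b % 512 < dms.length := by
      rw [length_dms]
      exact hr'
    have h5 := pProg_lane hi' hr
    rw [Nat.div_add_mod] at h5
    rw [expandC_two_pow, h5, Nat.testBit_two_pow, decide_eq_true_eq] at h2
    have h6 := dms_lt _ (List.getElem_mem hr)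
    have h9 := split_eq h2 h6 hm
    refine ⟨h9.1 ▸ hi', b % 512, hr, h9.2, ?_⟩
    rw [← h9.1, Nat.div_add_mod]
    exact h1
  · rintro ⟨hi, r, hr, h1, h2⟩
    have hr' : r < 508 := by
      rw [length_dms] at hr
      exact hr
    refine ⟨512 * i + r, by omega, h2, ?_⟩
    rw [expandC_two_pow, pProg_lane hi hr, h1]
    exact Nat.testBit_two_pow_self

/-- dense code of a family: bit `r` is the set with mask `dms[r]` -/
def dcode (F : Finset (Finset (Fin 13))) : ℕ :=
  Nat.ofBits (fun r : Fin 508 => decide (ofMask (dms.getD r.val 0) ∈ F))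

theorem dcode_lt (F : Finset (Finset (Fin 13))) : dcode F < 2 ^ 508 := Nat.ofBits_lt_two_pow _

theorem testBit_dcode (F : Finset (Finset (Fin 13))) {r : ℕ} (hr : r < dms.length) :
    (dcode F).testBit r = decide (ofMask dms[r] ∈ F) := by
  have h : r < 508 := by
    rw [length_dms] at hr
    exact hr
  unfold dcode
  rw [Nat.testBit_ofBits_lt _ _ h, List.getD_eq_getElem _ _ hr]

theorem mem_dms {m : ℕ} (hm : m < 2048)
    (hc : (ofMask m).card = 0 ∨ (ofMask m).card = 1 ∨ (ofMask m).card = 3 ∨
      (ofMask m).card = 4 ∨ (ofMask m).card = 11) : m ∈ dms := by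
  have h : ∀ k ∈ [0, 1, 3, 4, 11], ∀ m ∈ L 11 k, m ∈ dms := by decide +kernel
  have h2 : ∀ k, (ofMask m).card = k → m ∈ L 11 k := fun k hk =>
    (mem_L (by norm_num)).2 ⟨by norm_num; exact hm, hk⟩
  rcases hc with hc | hc | hc | hc | hc
  · exact h 0 (by simp) m (h2 0 hc)
  · exact h 1 (by simp) m (h2 1 hc)
  · exact h 3 (by simp) m (h2 3 hc)
  · exact h 4 (by simp) m (h2 4 hc)
  · exact h 11 (by simp) m (h2 11 hc)

/-- THE EXPANSION OF A LANE: dense code to cube code -/
theorem fld_expandC {X : ℕ} (hX : X < 2 ^ 32768)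
    (hpad : ∀ i < 64, ∀ r, 508 ≤ r → r < 512 → X.testBit (512 * i + r) = false) {i : ℕ}
    (hi : i < 64) {F : Finset (Finset (Fin 13))}
    (hF : ∀ s ∈ F, mk s < 2048 → s.card = 0 ∨ s.card = 1 ∨ s.card = 3 ∨ s.card = 4 ∨
      s.card = 11)
    (h : fld 512 X i = dcode F) : fld 2048 (expandC X) i = cub 11 F := by
  have hbit : ∀ r (hr : r < dms.length), X.testBit (512 * i + r) = decide (ofMask dms[r] ∈ F) := by
    intro r hr
    have hr' : r < 508 := by
      rw [length_dms] at hr
      exact hr
    rw [← testBit_dcode F hr, ← h, testBit_fld, decide_eq_true (by omega : r < 512),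
      Bool.true_and]
  refine Nat.eq_of_testBit_eq fun m => ?_
  rw [testBit_fld]
  by_cases hm : m < 2048
  · have hm' : m < 2 ^ 11 := hm
    rw [testBit_cub _ hm', decide_eq_true hm, Bool.true_and, Bool.eq_iff_iff,
      testBit_expandC hX hpad hm, decide_eq_true_eq]
    constructor
    · rintro ⟨-, r, hr, h1, h2⟩
      rw [hbit r hr, decide_eq_true_eq, h1] at h2
      exact h2
    · intro h1
      have h2 : m ∈ dms := by
        refine mem_dms hm (hF _ h1 ?_)
        rw [mk_ofMask (lt_trans hm (by norm_num))]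
        exact hm
      obtain ⟨r, hr, h3⟩ := List.mem_iff_getElem.1 h2
      refine ⟨hi, r, hr, h3, ?_⟩
      rw [hbit r hr, h3]
      exact decide_eq_true h1
  · rw [decide_eq_false hm, Bool.false_and, testBit_cub_ge _ (not_lt.1 hm)]

end Pool.Agent.Helper52.TY
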