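import Mathlib
import Pool.Agent.Helper52.TY.LayC

/-!
MP_8ee768_co, project TH-Y': the bits of the layered lanes and of the layered root of a frame.
-/

set_option autoImplicit false
set_option exponentiation.threshold 2000000

namespace Pool.Agent.Helper52.TY

open Finset
open Pool.Agent.Helper89.CV (OddCover ofMask)
open Pool.Agent.Helper97.CV
open Pool.Agent.Helper79.CV
open Pool.Agent.Helper33.CV
open Pool.Agent.Helper82.TY (below sub_iff_below Best Lay)

/-! ### masks -/

theorem ofMask_add (k : Fin 13) {m : ℕ} (hm : m < 2 ^ k.val) :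
    ofMask (2 ^ k.val + m) = insert k (ofMask m) := by
  ext a
  rw [mem_insert, mem_ofMask, mem_ofMask]
  rcases lt_trichotomy a.val k.val with h | h | h
  · rw [Nat.testBit_two_pow_add_gt h]
    exact ⟨Or.inr, fun h1 => h1.resolve_left (fun h2 => by
      rw [h2] at h
      exact lt_irrefl _ h)⟩
  · have h1 : a = k := Fin.ext h
    rw [h1, Nat.testBit_two_pow_add_eq, Nat.testBit_eq_false_of_lt hm]
    simp
  · have h1 : 2 ^ k.val + m < 2 ^ (k.val + 1) := by
      rw [pow_succ]
      omega
    have h2 : 2 ^ (k.val + 1) ≤ 2 ^ a.val := Nat.pow_le_pow_right (by norm_num) (by omega)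
    rw [Nat.testBit_eq_false_of_lt (lt_of_lt_of_le h1 h2),
      Nat.testBit_eq_false_of_lt (lt_of_lt_of_le hm
        (Nat.pow_le_pow_right (by norm_num) (by omega)))]
    constructor
    · intro h3
      exact absurd h3 Bool.false_ne_true
    · rintro (h3 | h3)
      · rw [h3] at h
        exact absurd h (lt_irrefl _)
      · exact absurd h3 Bool.false_ne_true

theorem ofMask_10 {m : ℕ} (hm : m < 1024) : ofMask (1024 + m) = insert 10 (ofMask m) :=
  ofMask_add 10 hm

theorem ofMask_11 {m : ℕ} (hm : m < 2048) : ofMask (2048 + m) = insert 11 (ofMask m) :=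
  ofMask_add 11 hm

theorem notMem_of_lt {m : ℕ} (hm : m < 1024) {k : Fin 13} (hk : 10 ≤ k.val) : k ∉ ofMask m :=
  notMem_of_subset_below (subset_below_ofMask (n := 10) hm) hk

/-- the points of a mask -/
theorem ofMask_pow' : ∀ t : Fin 13, ofMask (2 ^ t.val) = {t} := by decide

theorem pow_lt_1024 {t : Fin 13} (ht : t.val < 10) : 2 ^ t.val < 1024 := by
  have : 2 ^ t.val ≤ 2 ^ 9 := Nat.pow_le_pow_right (by norm_num) (by omega)
  omega

theorem one_le_mm_iff {B : Fam'} (hB : OddCover B) {x y : Fin 13} (h : x ≠ y) :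
    21 ≤ cnt B {x, y} ↔ 1 ≤ mm B x y := by
  rw [cnt_pair hB h]
  omega

theorem toNat_dec (a : ℕ) : (decide (a % 2 = 1)).toNat = a % 2 := by
  rcases Nat.mod_two_eq_zero_or_one a with h | h <;> simp [h]

/-! ### the lane of `11` -/

section
variable {B : Fam'} {m : ℕ}

theorem bit_LYL {m : ℕ} (hm : m < 2048) :
    (cub 11 (LYL B)).testBit m = decide (ofMask m ∈ LYL B) := testBit_cub _ (by simpa using hm)

theorem bit_LZL {m : ℕ} (hm : m < 2048) :
    (cub 11 (LZL B)).testBit m = decide (ofMask m ∈ LZL B) := testBit_cub _ (by simpa using hm)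

theorem LYL_four (hm : m < 1024) (hc : (ofMask m).card = 4) :
    (cub 11 (LYL B)).testBit m = true ↔ insert 11 (ofMask m) ∈ B := by
  rw [bit_LYL (by omega), decide_eq_true_eq, mem_LYL (subset_below_ofMask (n := 11) (by omega)), hc]
  simp

theorem LZL_four (hm : m < 1024) (hc : (ofMask m).card = 4) :
    (cub 11 (LZL B)).testBit m = true ↔ insert 10 (ofMask m) ∈ B := by
  rw [bit_LZL (by omega), decide_eq_true_eq, mem_LZL (subset_below_ofMask (n := 10) (by omega)), hc]
  simp

theorem LYL_three (hm : m < 1024) (hc : (ofMask m).card = 3) :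
    (cub 11 (LYL B)).testBit (1024 + m) = true ↔ insert 11 (insert 10 (ofMask m)) ∈ B := by
  have h10 := notMem_of_lt hm (k := 10) (by decide)
  rw [bit_LYL (by omega), decide_eq_true_eq, mem_LYL (subset_below_ofMask (n := 11) (by omega)),
    ofMask_10 hm, card_insert_of_notMem h10, hc]
  simp

theorem LZL_three (hm : m < 1024) (hc : (ofMask m).card = 3) :
    (cub 11 (LZL B)).testBit (1024 + m) = true ↔ insert 11 (insert 10 (ofMask m)) ∈ B := by
  have h11 := notMem_of_lt hm (k := 11) (by decide)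
  rw [bit_LZL (by omega), decide_eq_true_eq, ofMask_10 hm,
    mem_LZL' (subset_below_ofMask (n := 10) (by omega)), card_insert_of_notMem h11, hc,
    insert_comm 10 11]
  simp

theorem LYL_one (hB : OddCover B) {t : Fin 13} (ht : t.val < 10) :
    (cub 11 (LYL B)).testBit (2 ^ t.val) = true ↔ 1 ≤ mm B 11 t := by
  have h1 := pow_lt_1024 ht
  rw [bit_LYL (by omega), decide_eq_true_eq, mem_LYL (subset_below_ofMask (n := 11) (by omega)),
    ofMask_pow', card_singleton, ← one_le_mm_iff hB (fun h => by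
      rw [← h] at ht
      exact absurd ht (by decide))]
  simp

theorem LZL_one (hB : OddCover B) {t : Fin 13} (ht : t.val < 10) :
    (cub 11 (LZL B)).testBit (2 ^ t.val) = true ↔ 1 ≤ mm B 10 t := by
  have h1 := pow_lt_1024 ht
  rw [bit_LZL (by omega), decide_eq_true_eq, mem_LZL (subset_below_ofMask (n := 10) (by omega)),
    ofMask_pow', card_singleton, ← one_le_mm_iff hB (fun h => by
      rw [← h] at ht
      exact absurd ht (by decide))]
  simp

theorem MM_LYL (hB : OddCover B) (h6 : MM B 11 ≤ 6) : MM B 11 =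
    2 * (((cub 11 (LYL B)).testBit 0).toNat + 2 * ((cub 11 (LYL B)).testBit 2047).toNat) := by
  have h := MM_digits hB 11 h6
  have e0 : (ofMask 0).card = 0 := by decide
  have e1 : (ofMask 2047).card = 11 := by decide
  rw [bit_LYL (by norm_num), bit_LYL (by norm_num)]
  have h1 : ofMask 0 ∈ LYL B ↔ ((link B 11).card + 7) % 2 = 1 := by
    rw [mem_LYL (subset_below_ofMask (n := 11) (by norm_num)), e0]
    simp
  have h2 : ofMask 2047 ∈ LYL B ↔ ((link B 11).card + 7) / 2 % 2 = 1 := by
    rw [mem_LYL (subset_below_ofMask (n := 11) (by norm_num)), e1]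
    simp
  rw [decide_eq_decide.2 h1, decide_eq_decide.2 h2, h]
  rw [toNat_dec, toNat_dec]

theorem MM_LZL (hB : OddCover B) (h6 : MM B 10 ≤ 6) : MM B 10 =
    2 * (((cub 11 (LZL B)).testBit 0).toNat + 2 * ((cub 11 (LZL B)).testBit 2047).toNat) := by
  have h := MM_digits hB 10 h6
  have e0 : (ofMask 0).card = 0 := by decide
  rw [bit_LZL (by norm_num), bit_LZL (by norm_num)]
  have h1 : ofMask 0 ∈ LZL B ↔ ((link B 10).card + 7) % 2 = 1 := by
    rw [mem_LZL (subset_below_ofMask (n := 10) (by norm_num)), e0]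
    simp
  have h2 : ofMask 2047 ∈ LZL B ↔ ((link B 10).card + 7) / 2 % 2 = 1 := by
    have h11 : (11 : Fin 13) ∉ ofMask 1023 := by decide
    have e1 : (ofMask 1023).card = 10 := by decide
    rw [show (2047 : ℕ) = 1024 + 1023 by norm_num, ofMask_10 (by norm_num),
      mem_LZL' (subset_below_ofMask (n := 10) (by norm_num)), card_insert_of_notMem h11, e1]
    simp
  rw [decide_eq_decide.2 h1, decide_eq_decide.2 h2, h]
  rw [toNat_dec, toNat_dec]

/-! ### the root -/

/-- the root word of a frame -/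
def IsRoot (B : Fam') (R : ℕ) : Prop := R % 2 ^ 4096 = cub 12 (LayC (link B 12))

theorem IsRoot.bit {R : ℕ} (h : IsRoot B R) {m : ℕ} (hm : m < 4096) :
    R.testBit m = decide (ofMask m ∈ LayC (link B 12)) := by
  rw [← testBit_cub _ (by simpa using hm : m < 2 ^ 12), ← h, Nat.testBit_mod_two_pow,
    decide_eq_true hm, Bool.true_and]

theorem mem_layC_link {s : Finset (Fin 13)} (hs : (12 : Fin 13) ∉ s) (hc : s.card = 4) :
    s ∈ LayC (link B 12) ↔ insert 12 s ∈ B := by
  rw [mem_layC_four hc, mem_link, mk_lt_4096]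
  exact ⟨fun h => h.2.2, fun h => ⟨hs, hs, h⟩⟩

theorem IsRoot.four {R : ℕ} (h : IsRoot B R) (hm : m < 1024) (hc : (ofMask m).card = 4) :
    R.testBit m = true ↔ insert 12 (ofMask m) ∈ B := by
  rw [h.bit (by omega), decide_eq_true_eq, mem_layC_link (notMem_of_lt hm (by decide)) hc]

theorem IsRoot.xz {R : ℕ} (h : IsRoot B R) (hm : m < 1024) (hc : (ofMask m).card = 3) :
    R.testBit (1024 + m) = true ↔ insert 12 (insert 10 (ofMask m)) ∈ B := by
  have h10 := notMem_of_lt hm (k := 10) (by decide)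
  have h12 := notMem_of_lt hm (k := 12) (by decide)
  rw [h.bit (by omega), decide_eq_true_eq, ofMask_10 hm, mem_layC_link ?_ ?_]
  · rw [mem_insert, not_or]
    exact ⟨by decide, h12⟩
  · rw [card_insert_of_notMem h10, hc]

theorem IsRoot.xy {R : ℕ} (h : IsRoot B R) (hm : m < 1024) (hc : (ofMask m).card = 3) :
    R.testBit (2048 + m) = true ↔ insert 12 (insert 11 (ofMask m)) ∈ B := by
  have h11 := notMem_of_lt hm (k := 11) (by decide)
  have h12 := notMem_of_lt hm (k := 12) (by decide)
  rw [h.bit (by omega), decide_eq_true_eq, ofMask_11 (by omega), mem_layC_link ?_ ?_]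
  · rw [mem_insert, not_or]
    exact ⟨by decide, h12⟩
  · rw [card_insert_of_notMem h11, hc]

theorem IsRoot.xyz {R : ℕ} (h : IsRoot B R) (hm : m < 1024) (hc : (ofMask m).card = 2) :
    R.testBit (3072 + m) = true ↔ insert 12 (insert 11 (insert 10 (ofMask m))) ∈ B := by
  have h10 := notMem_of_lt hm (k := 10) (by decide)
  have h11 := notMem_of_lt hm (k := 11) (by decide)
  have h12 := notMem_of_lt hm (k := 12) (by decide)
  have h11' : (11 : Fin 13) ∉ insert 10 (ofMask m) := by
    rw [mem_insert, not_or]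
    exact ⟨by decide, h11⟩
  rw [h.bit (by omega), decide_eq_true_eq, show 3072 + m = 2048 + (1024 + m) by ring,
    ofMask_11 (by omega), ofMask_10 hm, mem_layC_link ?_ ?_]
  · rw [mem_insert, mem_insert, not_or, not_or]
    exact ⟨by decide, by decide, h12⟩
  · rw [card_insert_of_notMem h11', card_insert_of_notMem h10, hc]

theorem IsRoot.one {R : ℕ} (h : IsRoot B R) (hB : OddCover B) {t : Fin 13} (ht : t.val < 10) :
    R.testBit (2 ^ t.val) = true ↔ 1 ≤ mm B 12 t := by
  have h1 := pow_lt_1024 ht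
  have h12 : (12 : Fin 13) ∉ ({t} : Finset (Fin 13)) := by
    rw [mem_singleton]
    intro h2
    rw [← h2] at ht
    exact absurd ht (by decide)
  have h3 : (12 : Fin 13) ≠ t := fun h2 => h12 (by rw [← h2]; exact mem_singleton_self _)
  rw [h.bit (by omega), decide_eq_true_eq, ofMask_pow', mem_layC_one (card_singleton t),
    mk_lt_4096, ← card_link, card_link_link hB h3]
  constructor
  · intro h2
    omega
  · intro h2
    exact ⟨h12, by omega⟩

theorem IsRoot.MM {R : ℕ} (h : IsRoot B R) (hB : OddCover B) (h6 : MM B 12 ≤ 6) : MM B 12 =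
    2 * ((R.testBit 0).toNat + 2 * (R.testBit 4095).toNat) := by
  have h' := MM_digits hB 12 h6
  have e0 : (ofMask 0).card = 0 := by decide
  have e1 : (ofMask 4095).card = 12 := by decide
  rw [h.bit (by norm_num), h.bit (by norm_num)]
  have h1 : ofMask 0 ∈ LayC (link B 12) ↔ ((link B 12).card + 7) % 2 = 1 := mem_layC_zero e0
  have h2 : ofMask 4095 ∈ LayC (link B 12) ↔ ((link B 12).card + 7) / 2 % 2 = 1 := by
    rw [mem_layC_twelve e1, mk_ofMask (by norm_num)]
    simp
  rw [decide_eq_decide.2 h1, decide_eq_decide.2 h2, h']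
  rw [toNat_dec, toNat_dec]

end

end Pool.Agent.Helper52.TY
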