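import Mathlib
import Pool.Agent.Helper52.TY.RootA
import Pool.Agent.Helper52.TY.LaneA
import Pool.Agent.Helper59.TY.G8
import Pool.Agent.Helper55.TY.Cbk
import Pool.Agent.Helper97.CV.KilR

/-!
MP_8ee768_co, project TH-Y', stage A: the thresholds, the word of the lower bounds and the test of
agreement of the callback.
-/

set_option autoImplicit false
set_option exponentiation.threshold 2000000

namespace Pool.Agent.Helper52.TY

open Finset
open Pool.Agent.Helper89.CV (OddCover ofMask)
open Pool.Agent.Helper97.CV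
open Pool.Agent.Helper97.CV.Kill10 (P1 P2 onS P1_lt P2_lt P1_le P2_le)
open Pool.Agent.Helper63.SIMD
open Pool.Agent.Helper59.TY (spd spd_eq)
open Pool.Agent.Helper33.CV

/-! ### the lower bounds -/

/-- the lower bounds: `8` at the heavy points -/
def lowA (h : ℕ) (r : ℕ) : ℕ := 8 * ((pts 10 h).testBit r).toNat

theorem lowA_le (h r : ℕ) : lowA h r ≤ 127 := by
  unfold lowA
  cases (pts 10 h).testBit r <;> simp

theorem lowA_even (h r : ℕ) : lowA h r % 2 = 0 := by
  unfold lowA
  omega

theorem pts_lt (h : ℕ) : pts 10 h < 2 ^ 1024 := by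
  refine Nat.lt_pow_two_of_testBit _ fun i hi => ?_
  rw [← Bool.not_eq_true, testBit_pts]
  rintro ⟨t, ht, h1, -⟩
  have : 2 ^ t ≤ 2 ^ 9 := Nat.pow_le_pow_right (by norm_num) (by omega)
  omega

theorem lowA_pow {h t : ℕ} (ht : t < 10) : lowA h (2 ^ t) = 8 * (h.testBit t).toNat := by
  unfold lowA
  have h1 : (pts 10 h).testBit (2 ^ t) = h.testBit t := by
    rw [Bool.eq_iff_iff, testBit_pts]
    constructor
    · rintro ⟨s, -, h1, h2⟩
      rwa [Nat.pow_right_injective (le_refl 2) h1]
    · intro h1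
      exact ⟨t, ht, rfl, h1⟩
  rw [h1]

theorem lowA_off {h r : ℕ} (hr : r ∉ P1) : lowA h r = 0 := by
  unfold lowA
  have h1 : (pts 10 h).testBit r = false := by
    rw [← Bool.not_eq_true, testBit_pts]
    rintro ⟨t, ht, h1, -⟩
    refine hr ?_
    rw [Pool.Agent.Helper97.CV.Kill10.P1_eq, mem_image]
    exact ⟨t, mem_range.2 ht, h1.symm⟩
  rw [h1]
  rfl

/-- the word of the lower bounds -/
def wLow (h : ℕ) : ℕ := Nat.mul 8 (spd (pts 10 h))

theorem fld_one (a r : ℕ) : fld 1 a r = (a.testBit r).toNat := by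
  unfold fld
  rw [one_mul, pow_one, Nat.toNat_testBit]

theorem wLow_eq (h : ℕ) : wLow h = pk 8 1024 (lowA h) := by
  show 8 * spd (pts 10 h) = _
  rw [spd_eq (pts_lt h), mul_pk]
  refine pk_congr fun r _ => ?_
  rw [fld_one]
  rfl

theorem cH_eq : Pool.Agent.Helper55.TY.M10.cH = pk 8 1024 (onS P1 128) := by
  rw [← Pool.Agent.Helper55.TY.M10.kH_eq]
  unfold Pool.Agent.Helper97.CV.Kill10.kH
  rw [Pool.Agent.Helper55.TY.M10.rep_one, mul_one]

/-- the word `128 - l` at the points -/
theorem sub_wLow (h : ℕ) : Pool.Agent.Helper55.TY.M10.cH - wLow h =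
    pk 8 1024 (fun r => onS P1 128 r - lowA h r) := by
  rw [cH_eq, wLow_eq]
  refine pk_sub fun r _ => ?_
  by_cases hr : r ∈ P1
  · unfold onS
    rw [if_pos hr]
    exact (lowA_le h r).trans (by norm_num)
  · rw [lowA_off hr]
    exact Nat.zero_le _

theorem sum_lowA (h : ℕ) : ∑ r ∈ range 1024, lowA h r = ∑ z ∈ range 10, lowA h (2 ^ z) := by
  rw [← Pool.Agent.Helper97.CV.Kill10.sum_P1 (lowA h)]
  refine (sum_subset (fun r hr => mem_range.2 (P1_lt hr)) fun r _ hr => lowA_off hr).symm

theorem sum_lowA_le (h : ℕ) : ∑ z ∈ range 10, lowA h (2 ^ z) ≤ 80 := by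
  calc ∑ z ∈ range 10, lowA h (2 ^ z) ≤ ∑ _z ∈ range 10, 8 := sum_le_sum fun z hz => by
        rw [lowA_pow (mem_range.1 hz)]
        cases h.testBit z <;> simp
    _ = 80 := by simp

/-- the sum of the lower bounds -/
theorem wLow_mod (h : ℕ) : wLow h % 255 = ∑ z ∈ range 10, lowA h (2 ^ z) := by
  have h1 : wLow h % 255 = (∑ r ∈ range 1024, lowA h r) % 255 := by
    rw [wLow_eq]
    exact pk_modEq 1024 (lowA h)
  rw [h1, sum_lowA]
  exact Nat.mod_eq_of_lt (lt_of_le_of_lt (sum_lowA_le h) (by norm_num))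

/-! ### the thresholds -/

/-- the threshold of a frame -/
def thrA (R L : ℕ) : ℕ :=
  Nat.sub (Nat.sub 89 (Nat.mul 2 (Nat.add (Nat.land R 1)
    (Nat.mul 2 (Nat.land (Nat.shiftRight R 4095) 1))))) (Nat.mod L 255)

/-- the bits `0` and `2047` -/
def c2b : ℕ :=
  0x80000000000000000000000000000000000000000000000000000000000000000000000000000000000000000000000000000000000000000000000000000000000000000000000000000000000000000000000000000000000000000000000000000000000000000000000000000000000000000000000000000000000000000000000000000000000000000000000000000000000000000000000000000000000000000000000000000000000000000000000000000000000000000000000000000000000000000000000000000000000000000000000000000000000000000000000000000000000000000000000000000000000000000000000000000001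

theorem c2b_eq : c2b = 1 + 2 ^ 2047 := by decide +kernel

/-- the threshold of a match -/
def thrM (T u v : ℕ) : ℕ :=
  Nat.sub T (Nat.mul 2 (Nat.mod (Nat.add (Nat.land u c2b) (Nat.land v c2b)) 2047))

theorem toNat_mul_pow (b : Bool) (i : ℕ) : (b.toNat * 2 ^ 2047).testBit i =
    (b && decide (2047 = i)) := by
  cases b with
  | false =>
    rw [Bool.toNat_false, Nat.zero_mul, Nat.zero_testBit, Bool.false_and]
  | true =>
    rw [Bool.toNat_true, Nat.one_mul, Nat.testBit_two_pow, Bool.true_and]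

theorem testBit_toNat (b : Bool) (i : ℕ) : b.toNat.testBit i = (b && decide (i = 0)) := by
  cases b with
  | false =>
    rw [Bool.toNat_false, Nat.zero_testBit, Bool.false_and]
  | true =>
    rw [Bool.toNat_true, Bool.true_and, Bool.eq_iff_iff,
      Nat.testBit_one_eq_true_iff_self_eq_zero, decide_eq_true_eq]

theorem toNat_or (b c : Bool) : c.toNat + b.toNat * 2 ^ 2047 = c.toNat ||| b.toNat * 2 ^ 2047 := by
  refine Nat.eq_of_testBit_eq fun i => ?_
  rw [Nat.testBit_or, toNat_mul_pow, testBit_toNat, Nat.mul_comm, Nat.add_comm,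
    Nat.testBit_two_pow_mul_add _ (lt_of_le_of_lt (Bool.toNat_le c)
      (Nat.one_lt_two_pow (by norm_num)))]
  by_cases hi : i < 2047
  · rw [if_pos hi, testBit_toNat, decide_eq_false (show ¬ 2047 = i by omega), Bool.and_false,
      Bool.or_false]
  · rw [if_neg hi, testBit_toNat, decide_eq_false (show ¬ i = 0 by omega), Bool.and_false,
      Bool.false_or, decide_eq_decide.2 (show i - 2047 = 0 ↔ 2047 = i by omega)]

theorem bit_and (x i j : ℕ) : (x.testBit i && decide (j = i)) =
    (x.testBit j && decide (j = i)) := by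
  by_cases hi : j = i
  · rw [hi]
  · rw [decide_eq_false hi, Bool.and_false, Bool.and_false]

theorem testBit_one (i : ℕ) : (1 : ℕ).testBit i = decide (0 = i) := by
  rw [Bool.eq_iff_iff, Nat.testBit_one_eq_true_iff_self_eq_zero, decide_eq_true_eq]
  exact eq_comm

theorem land_c2b {u : ℕ} :
    u &&& c2b = (u.testBit 0).toNat + (u.testBit 2047).toNat * 2 ^ 2047 := by
  have e1 : (1 : ℕ) + 2 ^ 2047 = 1 ||| 2 ^ 2047 := by
    have h := toNat_or true true
    rwa [Bool.toNat_true, Nat.one_mul] at h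
  rw [toNat_or, c2b_eq, e1]
  refine Nat.eq_of_testBit_eq fun i => ?_
  rw [Nat.testBit_and, Nat.testBit_or, Nat.testBit_or, toNat_mul_pow, testBit_toNat,
    Nat.testBit_two_pow, testBit_one, Bool.and_or_distrib_left, bit_and u i 0,
    bit_and u i 2047, show decide (i = 0) = decide (0 = i) from decide_eq_decide.2 eq_comm]

theorem two_pow_mod : (2 : ℕ) ^ 2047 % 2047 = 2 := by decide +kernel

/-- the sum of the digits -/
theorem digits_mod (u v : ℕ) :
    ((u &&& c2b) + (v &&& c2b)) % 2047 =
      ((u.testBit 0).toNat + 2 * (u.testBit 2047).toNat) +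
        ((v.testBit 0).toNat + 2 * (v.testBit 2047).toNat) := by
  have h1 : (u &&& c2b) + (v &&& c2b) ≡ ((u.testBit 0).toNat + 2 * (u.testBit 2047).toNat) +
        ((v.testBit 0).toNat + 2 * (v.testBit 2047).toNat) [MOD 2047] := by
    rw [land_c2b, land_c2b]
    have h2 : (2 : ℕ) ^ 2047 ≡ 2 [MOD 2047] := two_pow_mod
    have h3 : ∀ a b : ℕ, a + b * 2 ^ 2047 ≡ a + 2 * b [MOD 2047] := fun a b => by
      rw [Nat.mul_comm 2 b]
      exact (h2.mul_left b).add_left a
    exact (h3 _ _).add (h3 _ _)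
  have h4 : ((u.testBit 0).toNat + 2 * (u.testBit 2047).toNat) +
        ((v.testBit 0).toNat + 2 * (v.testBit 2047).toNat) < 2047 := by
    have a1 := Bool.toNat_le (u.testBit 0)
    have a2 := Bool.toNat_le (u.testBit 2047)
    have a3 := Bool.toNat_le (v.testBit 0)
    have a4 := Bool.toNat_le (v.testBit 2047)
    omega
  exact (show _ % 2047 = _ % 2047 from h1).trans (Nat.mod_eq_of_lt h4)

/-- **the threshold is sound** -/
theorem thr_ok {B : Fam'} (hB : OddCover B) {R h u v : ℕ} (hR : IsRoot B R)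
    (hu : cub 11 (LYL B) = u) (hv : cub 11 (LZL B) = v) (h12 : MM B 12 ≤ 6) (h11 : MM B 11 ≤ 6)
    (h10 : MM B 10 ≤ 6) :
    88 < thrM (thrA R (wLow h)) u v + ∑ z ∈ range 10, lowA h (2 ^ z) +
      (MM B 10 + MM B 11 + MM B 12) := by
  have e12 := hR.MM hB h12
  have e11 := MM_LYL hB h11
  have e10 := MM_LZL hB h10
  rw [hu] at e11
  rw [hv] at e10
  have e1 : thrM (thrA R (wLow h)) u v = thrA R (wLow h) -
      2 * (((u &&& c2b) + (v &&& c2b)) % 2047) := rfl
  have e2 : thrA R (wLow h) = 89 - 2 * ((R &&& 1) + 2 * ((R >>> 4095) &&& 1)) -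
      wLow h % 255 := rfl
  have e3 : R &&& 1 = (R.testBit 0).toNat := by
    rw [Nat.and_one_is_mod, Nat.toNat_testBit]
    simp
  have e4 : (R >>> 4095) &&& 1 = (R.testBit 4095).toNat := by
    rw [Nat.and_one_is_mod, Nat.toNat_testBit, Nat.shiftRight_eq_div_pow]
  rw [e1, e2, digits_mod, wLow_mod, e3, e4]
  omega

/-! ### agreement -/

/-- the literal `2 ^ 1023 - 1` -/
def c1023 : ℕ :=
  0x7fffffffffffffffffffffffffffffffffffffffffffffffffffffffffffffffffffffffffffffffffffffffffffffffffffffffffffffffffffffffffffffffffffffffffffffffffffffffffffffffffffffffffffffffffffffffffffffffffffffffffffffffffffffffffffffffffffffffffffffffffffffffffffffff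

theorem c1023_eq : c1023 = 2 ^ 1023 - 1 := by decide +kernel

/-- do the upper halves agree -/
def eqU (u v : ℕ) : Bool :=
  Nat.beq (Nat.land (Nat.shiftRight (Nat.xor u v) 1024) c1023) 0

/-- lanes which agree pass the test -/
theorem eqU_of_agree {u v : ℕ} (h : Pool.Agent.Helper63.TY.Agree u v) : eqU u v = true := by
  have h1 : ((u ^^^ v) >>> 1024) &&& c1023 = 0 := by
    refine Nat.eq_of_testBit_eq fun i => ?_
    rw [Nat.testBit_and, Nat.testBit_shiftRight, Nat.testBit_xor, Nat.zero_testBit, c1023_eq,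
      Nat.testBit_two_pow_sub_one]
    by_cases hi : i < 1023
    · rw [h i hi, Bool.xor_self, Bool.false_and]
    · rw [decide_eq_false hi, Bool.and_false]
  show Nat.beq (((u ^^^ v) >>> 1024) &&& c1023) 0 = true
  rw [h1]
  rfl

end Pool.Agent.Helper52.TY
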